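import Mathlib

set_option autoImplicit false

/-!
# Systems given by matrices whose minors of high order are positive
-/

namespace Pool.Agent.H37.HO

/-- The system `A x ≥ b` is given by a matrix whose minors of order at most `n - n ^ (1 / k)` are
positive: there are a number `r` with `r ^ k ≤ n` and a matrix `T` such that all minors of `T` of
order at most `n - r` are positive, every row of `A` is a row of `T` or the negative of a row of `T`,
in the order of the rows of `T`, and `b` is a unit vector.

Moreover the number `m` of inequalities is at most `2 n + r`, and the entries of `T` are almost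
known: they differ by at most `2 ^ (-n ^ k)` from the integers
`(1 + (u + 1) * (j + 1)) ^ (n - r - 1)`. -/
def HighOrder (k m n : ℕ) (A : Matrix (Fin m) (Fin n) ℝ) (b : Fin m → ℝ) : Prop :=
  ∃ (r p : ℕ) (T : Matrix (Fin p) (Fin n) ℝ) (row : Fin m → Fin p) (i₀ : Fin m),
    r ^ k ≤ n ∧ m ≤ 2 * n + r ∧
    (∀ (s : ℕ) (f : Fin s → Fin p) (g : Fin s → Fin n), s + r ≤ n → StrictMono f → StrictMono g →
      0 < (T.submatrix f g).det) ∧
    (∀ u j, |T u j - (1 + ((u : ℝ) + 1) * ((j : ℝ) + 1)) ^ (n - r - 1)| ≤ 1 / 2 ^ (n ^ k)) ∧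
    Monotone row ∧ (∀ i, (∀ j, A i j = T (row i) j) ∨ ∀ j, A i j = -T (row i) j) ∧
    ∀ i, b i = if i = i₀ then 1 else 0

end Pool.Agent.H37.HO
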