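import Pool.Agent.H37.HO.Near

/-! The system and its solvability. -/

set_option autoImplicit false

namespace Pool.Agent.H37.HO

open Finset

/-- The matrix of nodes. -/
noncomputable def tv (m n K : ℕ) (μ : ℝ) (d : ℕ → ℕ → ℝ) (u j : ℕ) : ℝ :=
  (kr K u j : ℝ) +
    if u < m ∧ K ≤ j ∧ j ≤ K + n then d u (j - K) else if u = m ∧ j = K + n then μ else 0

/-- The node of a row. -/
def nd (m I : ℕ) : ℕ := if I ≤ m then I else m + 1 + (I - (m + 1)) / 2

/-- Is the row taken with the sign `-`? -/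
def sn (m I : ℕ) : Prop := m < I ∧ (I - (m + 1)) % 2 = 1

instance (m I : ℕ) : Decidable (sn m I) := by unfold sn; infer_instance

/-- The value of the kernel. -/
noncomputable def R (K N : ℕ) (Z : ℕ → ℝ) (u : ℕ) : ℝ := ∑ j ∈ range N, (kr K u j : ℝ) * Z j

/-- The value of a row. -/
noncomputable def rv (m n K r : ℕ) (μ : ℝ) (d : ℕ → ℕ → ℝ) (Z : ℕ → ℝ) (u : ℕ) : ℝ :=
  ∑ j ∈ range (K + r), tv m n K μ d u j * Z j

variable {m n K r : ℕ} {μ : ℝ} {d : ℕ → ℕ → ℝ}

theorem rv_eq (hr : n + 1 ≤ r) (Z : ℕ → ℝ) (u : ℕ) : rv m n K r μ d Z u = R K (K + r) Z u +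
    if u < m then ∑ c ∈ range (n + 1), d u c * Z (K + c) else if u = m then μ * Z (K + n) else 0 := by
  unfold rv R tv
  simp only [add_mul, sum_add_distrib]
  congr 1
  rw [sum_range_add]
  have e1 : ∑ x ∈ range K, (if u < m ∧ K ≤ x ∧ x ≤ K + n then d u (x - K) else
      if u = m ∧ x = K + n then μ else 0) * Z x = 0 := by
    refine sum_eq_zero fun x hx => ?_
    have hx := mem_range.mp hx
    rw [if_neg (by omega), if_neg (by omega), zero_mul]
  rw [e1, zero_add]
  obtain ⟨q, rfl⟩ : ∃ q, r = (n + 1) + q := ⟨r - (n + 1), by omega⟩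
  rw [sum_range_add]
  have e2 : ∑ x ∈ range q, (if u < m ∧ K ≤ K + (n + 1 + x) ∧ K + (n + 1 + x) ≤ K + n then
      d u (K + (n + 1 + x) - K) else if u = m ∧ K + (n + 1 + x) = K + n then μ else 0) *
      Z (K + (n + 1 + x)) = 0 := by
    refine sum_eq_zero fun x hx => ?_
    rw [if_neg (by omega), if_neg (by omega), zero_mul]
  rw [e2, add_zero]
  by_cases h1 : u < m
  · rw [if_pos h1]
    refine sum_congr rfl fun x hx => ?_
    have hx := mem_range.mp hx
    rw [if_pos (by omega), show K + x - K = x by omega]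
  · rw [if_neg h1]
    by_cases h2 : u = m
    · rw [if_pos h2, sum_eq_single n]
      · rw [if_neg (by omega), if_pos ⟨h2, rfl⟩]
      · intro x hx hxn
        have hx := mem_range.mp hx
        rw [if_neg (by omega), if_neg (by omega), zero_mul]
      · intro h
        exact absurd (mem_range.mpr (by omega)) h
    · rw [if_neg h2]
      refine sum_eq_zero fun x hx => ?_
      rw [if_neg (by omega), if_neg (by omega), zero_mul]

open Polynomial in
/-- `K` zeros are enough. -/
theorem R_zero {N : ℕ} (hK : 1 ≤ K) (Z : ℕ → ℝ) (h : ∀ s, s < K → R K N Z (m + 1 + s) = 0)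
    (u : ℕ) : R K N Z u = 0 := by
  let P : ℝ[X] := ∑ j ∈ range N, C (Z j) * (1 + X * C ((j : ℝ) + 1)) ^ (K - 1)
  have hev : ∀ v : ℕ, P.eval ((v : ℝ) + 1) = R K N Z v := by
    intro v
    simp only [P, R, kr, eval_finsetSum, eval_mul, eval_C, eval_pow, eval_add, eval_one, eval_X]
    refine sum_congr rfl fun j _ => ?_
    push_cast
    ring
  have hdeg : P.natDegree ≤ K - 1 := by
    refine natDegree_sum_le_of_forall_le _ _ fun j _ => ?_
    refine (natDegree_C_mul_le _ _).trans ?_
    refine (natDegree_pow_le).trans ?_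
    have : (1 + X * C ((j : ℝ) + 1)).natDegree ≤ 1 := by
      refine (natDegree_add_le _ _).trans ?_
      rw [natDegree_one]
      refine max_le (by omega) ?_
      exact (natDegree_mul_C_le _ _).trans natDegree_X_le
    calc (K - 1) * (1 + X * C ((j : ℝ) + 1)).natDegree ≤ (K - 1) * 1 :=
          Nat.mul_le_mul_left _ this
      _ = K - 1 := mul_one _
  have hP : P = 0 := by
    refine eq_zero_of_natDegree_lt_card_of_eval_eq_zero' P
      ((range K).image fun s => (((m + 1 + s : ℕ) : ℝ) + 1)) ?_ ?_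
    · intro x hx
      obtain ⟨s, hs, rfl⟩ := mem_image.1 hx
      rw [hev]
      exact h s (mem_range.mp hs)
    · rw [card_image_of_injective, card_range]
      · omega
      · intro a b hab
        have h1 : (((m + 1 + a : ℕ) : ℝ)) = ((m + 1 + b : ℕ) : ℝ) := by linarith [hab]
        have h2 : m + 1 + a = m + 1 + b := by exact_mod_cast h1
        omega
  rw [← hev, hP, eval_zero]

/-- The first `K` unknowns can be found. -/
theorem exists_Z (hK : 1 ≤ K) (r : ℕ) (w : ℕ → ℝ) : ∃ Z : ℕ → ℝ, (∀ c, Z (K + c) = w c) ∧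
    ∀ u, R K (K + r) Z u = 0 := by
  let M : Matrix (Fin K) (Fin K) ℝ :=
    Matrix.of fun i j => ((kr K (0 + 1 + (i : ℕ)) (j : ℕ) : ℕ) : ℝ)
  have hM : IsUnit M.det := by
    have := kr_det_pos (s := K) le_rfl (fun i => 0 + 1 + (i : ℕ)) (fun j => (j : ℕ))
      (fun i j h => by simpa using h) (fun i j h => by simpa using h)
    exact isUnit_iff_ne_zero.2 (by
      have h2 : (1 : ℝ) ≤ M.det := this
      linarith)
  let c : Fin K → ℝ := fun i => -∑ j ∈ range r, (kr K (0 + 1 + (i : ℕ)) (K + j) : ℝ) * w j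
  let y : Fin K → ℝ := M⁻¹.mulVec c
  have hy : M.mulVec y = c := by
    simp only [y]
    rw [Matrix.mulVec_mulVec, Matrix.mul_nonsing_inv _ hM, Matrix.one_mulVec]
  refine ⟨fun j => if h : j < K then y ⟨j, h⟩ else w (j - K), fun c => ?_, ?_⟩
  · simp only
    rw [dif_neg (by omega), show K + c - K = c by omega]
  · refine R_zero (m := 0) hK _ fun s hs => ?_
    unfold R
    rw [sum_range_add]
    have h1 := congrFun hy ⟨s, hs⟩
    have e1 : ∑ x ∈ range K, (kr K (0 + 1 + s) x : ℝ) *
        (if h : x < K then y ⟨x, h⟩ else w (x - K)) = M.mulVec y ⟨s, hs⟩ := by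
      rw [sum_range]
      unfold Matrix.mulVec dotProduct
      refine sum_congr rfl fun j _ => ?_
      rw [dif_pos j.2]
      rfl
    rw [e1, h1]
    have e2 : ∑ x ∈ range r, (kr K (0 + 1 + s) (K + x) : ℝ) *
        (if h : K + x < K then y ⟨K + x, h⟩ else w (K + x - K)) =
        ∑ x ∈ range r, (kr K (0 + 1 + s) (K + x) : ℝ) * w x := by
      refine sum_congr rfl fun j _ => ?_
      rw [dif_neg (by omega), show K + j - K = j by omega]
    rw [e2]
    simp only [c]
    ring

/-- The conditions on the unknowns. -/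
def Sys (m n K r : ℕ) (μ : ℝ) (d : ℕ → ℕ → ℝ) (Z : ℕ → ℝ) : Prop :=
  ∀ I, I < m + 1 + 2 * K → (if I = m then (1 : ℝ) else 0) ≤
    (if sn m I then -1 else 1) * rv m n K r μ d Z (nd m I)

theorem sys_forth (hK : 1 ≤ K) (hr : n + 1 ≤ r) {Z : ℕ → ℝ} (h : Sys m n K r μ d Z) :
    1 ≤ μ * Z (K + n) ∧ ∀ i, i < m → 0 ≤ ∑ c ∈ range (n + 1), d i c * Z (K + c) := by
  have h0 : ∀ s, s < K → R K (K + r) Z (m + 1 + s) = 0 := by
    intro s hs
    have h1 := h (m + 1 + 2 * s) (by omega)
    have h2 := h (m + 1 + (2 * s + 1)) (by omega)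
    have e1 : nd m (m + 1 + 2 * s) = m + 1 + s := by unfold nd; rw [if_neg (by omega)]; omega
    have e2 : nd m (m + 1 + (2 * s + 1)) = m + 1 + s := by unfold nd; rw [if_neg (by omega)]; omega
    have s1 : ¬ sn m (m + 1 + 2 * s) := by unfold sn; omega
    have s2 : sn m (m + 1 + (2 * s + 1)) := by unfold sn; omega
    rw [if_neg (by omega), if_neg s1, e1, rv_eq hr, if_neg (by omega), if_neg (by omega)] at h1
    rw [if_neg (by omega), if_pos s2, e2, rv_eq hr, if_neg (by omega), if_neg (by omega)] at h2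
    linarith
  have hR := R_zero hK Z h0
  refine ⟨?_, fun i hi => ?_⟩
  · have h1 := h m (by omega)
    have e1 : nd m m = m := by unfold nd; rw [if_pos le_rfl]
    have s1 : ¬ sn m m := by unfold sn; omega
    rw [if_pos rfl, if_neg s1, e1, rv_eq hr, if_neg (by omega), if_pos rfl, hR] at h1
    linarith
  · have h1 := h i (by omega)
    have e1 : nd m i = i := by unfold nd; rw [if_pos hi.le]
    have s1 : ¬ sn m i := by unfold sn; omega
    rw [if_neg (by omega), if_neg s1, e1, rv_eq hr, if_pos hi, hR] at h1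
    linarith

theorem sys_back (hK : 1 ≤ K) (hr : n + 1 ≤ r) {w : ℕ → ℝ} (hn : 1 ≤ μ * w n)
    (hs : ∀ i, i < m → 0 ≤ ∑ c ∈ range (n + 1), d i c * w c) :
    ∃ Z : ℕ → ℝ, Sys m n K r μ d Z := by
  obtain ⟨Z, hZ, hR⟩ := exists_Z hK r w
  refine ⟨Z, fun I hI => ?_⟩
  rw [rv_eq hr, hR, zero_add]
  simp only [hZ]
  rcases lt_trichotomy I m with h1 | h1 | h1
  · have e1 : nd m I = I := by unfold nd; rw [if_pos h1.le]
    have s1 : ¬ sn m I := by unfold sn; omega
    rw [if_neg (by omega), if_neg s1, e1, if_pos h1, one_mul]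
    exact hs I h1
  · have e1 : nd m I = m := by unfold nd; rw [if_pos h1.le, h1]
    have s1 : ¬ sn m I := by unfold sn; omega
    rw [if_pos h1, if_neg s1, e1, if_neg (by omega), if_pos rfl, one_mul]
    exact hn
  · have e1 : m < nd m I := by unfold nd; rw [if_neg (by omega)]; omega
    rw [if_neg (by omega), if_neg (by omega : ¬ nd m I < m), if_neg (by omega : ¬ nd m I = m),
      mul_zero]

end Pool.Agent.H37.HO
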