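import Pool.Graph.R_pool_sql_team_seeded_35f281b4.K7.H40.PU.Store
import Pool.Agent.H37.HO.Defs
import Pool.Agent.H37.HO.Sys

set_option autoImplicit false

/-! The new system and the program which writes it. -/

namespace Pool.Agent.H37.HO

open Pool.Agent.NPC Pool.Agent.H558R2 Pool.Agent.H622R3.SM
open Pool.Agent.R533.GU Pool.Agent.K7.H40.NU
open Pool.Agent.K7.H40.PU (pr1 V1 V1_D0 pr1_good pr1_dst th dd abs_dd_le th_pos exV sm_th)

/-! ### Sizes -/

/-- The defect of the order. -/
def rH (m n : ℕ) : ℕ := (m + 2) * (n + 1)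

/-- The order. -/
def kH (k m n : ℕ) : ℕ := rH m n ^ (k + 1)

/-- The number of unknowns. -/
def nH (k m n : ℕ) : ℕ := kH k m n + rH m n

/-- The number of inequalities. -/
def mH (m K : ℕ) : ℕ := m + 1 + 2 * K

/-- The exponent. -/
def tH (k m n : ℕ) : ℕ :=
  nH k m n ^ k + ((m + 1 + kH k m n) * nH k m n + 4) * (nH k m n * nH k m n)

theorem rH_pos (m n : ℕ) : 1 ≤ rH m n := by
  unfold rH
  exact Nat.succ_le_of_lt (by positivity)

theorem rH_n (m n : ℕ) : n + 1 ≤ rH m n := by
  unfold rH
  nlinarith [Nat.zero_le (m * n)]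

theorem rH_m (m n : ℕ) : m + 1 ≤ rH m n := by
  unfold rH
  nlinarith [Nat.zero_le (m * n)]

theorem kH_pos (k m n : ℕ) : 1 ≤ kH k m n := by
  unfold kH
  exact Nat.one_le_pow _ _ (rH_pos m n)

/-! ### The new system -/

/-- The new matrix. -/
noncomputable def nM {m n : ℕ} (E K r : ℕ) (A : Matrix (Fin m) (Fin n) ℝ) (b : Fin m → ℝ) :
    Matrix (Fin (mH m K)) (Fin (K + r)) ℝ := fun I J =>
  (if sn m I then -1 else 1) * tv m n K ((1 / 2) ^ (E + 1)) (dd E A b) (nd m I) J

/-- The new right-hand side. -/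
def vM (m K : ℕ) : Fin (mH m K) → ℝ := fun I => if (I : ℕ) = m then 1 else 0

variable {m n : ℕ} (E K r : ℕ) (A : Matrix (Fin m) (Fin n) ℝ) (b : Fin m → ℝ)

theorem nM_mulVec (x : Fin (K + r) → ℝ) (I : Fin (mH m K)) :
    (nM E K r A b).mulVec x I = (if sn m I then -1 else 1) *
      rv m n K r ((1 / 2) ^ (E + 1)) (dd E A b) (exV x) (nd m I) := by
  unfold Matrix.mulVec dotProduct rv
  rw [Finset.sum_range, Finset.mul_sum]
  refine Finset.sum_congr rfl fun J _ => ?_
  unfold nM exV
  rw [dif_pos J.2]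
  ring

/-- **The new system is solvable iff the old one is.** -/
theorem nM_iff (hK : 1 ≤ K) (hr : n + 1 ≤ r) : (∃ z, vM m K ≤ (nM E K r A b).mulVec z) ↔
    ∃ x : Fin n → ℝ, b ≤ A.mulVec x := by
  have hμ : (0 : ℝ) < (1 / 2) ^ (E + 1) := by positivity
  have key : ∀ (i : ℕ) (h : ℕ → ℝ),
      (0 ≤ ∑ j ∈ Finset.range (n + 1), dd E A b i j * h j) ↔
      0 ≤ ∑ j ∈ Finset.range (n + 1), ext A b i j * h j := by
    intro i h
    have e : ∑ j ∈ Finset.range (n + 1), dd E A b i j * h j =
        th E A b * ∑ j ∈ Finset.range (n + 1), ext A b i j * h j := by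
      rw [Finset.mul_sum]
      exact Finset.sum_congr rfl fun j _ => by unfold K7.H40.PU.dd; ring
    rw [e]
    exact mul_nonneg_iff_of_pos_left (th_pos E A b)
  constructor
  · rintro ⟨z, hz⟩
    have hsys : Sys m n K r ((1 / 2) ^ (E + 1)) (dd E A b) (exV z) := by
      intro I hI
      have h1 := hz ⟨I, hI⟩
      rw [nM_mulVec] at h1
      exact h1
    obtain ⟨hn, hs⟩ := sys_forth hK hr hsys
    refine ⟨fun j => exV z (K + j) / exV z (K + n), fun i => ?_⟩
    have h1 := (key i (fun j => exV z (K + j))).mp (hs i i.2)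
    rw [ext_sum A b i (fun j => exV z (K + j))] at h1
    have hp : 0 < exV z (K + n) := by
      by_contra hneg
      push Not at hneg
      nlinarith
    have h2 : A.mulVec (fun j : Fin n => exV z (K + j) / exV z (K + n)) i =
        (∑ j : Fin n, A i j * exV z (K + j)) / exV z (K + n) := by
      unfold Matrix.mulVec dotProduct
      rw [Finset.sum_div]
      exact Finset.sum_congr rfl fun j _ => by ring
    rw [h2, le_div_iff₀ hp]
    linarith
  · rintro ⟨x, hx⟩
    have hpos : ∀ i, i < m → 0 ≤ ∑ j ∈ Finset.range (n + 1), dd E A b i j *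
        (if h : j < n then x ⟨j, h⟩ else 1) := by
      intro i hi
      rw [key]
      have h1 := ext_sum A b ⟨i, hi⟩ (fun j => if h : j < n then x ⟨j, h⟩ else 1)
      have h2 := hx ⟨i, hi⟩
      simp only at h1
      rw [h1]
      simp only [Fin.is_lt, dite_true, Fin.eta, lt_irrefl, dite_false, mul_one]
      unfold Matrix.mulVec dotProduct at h2
      linarith
    obtain ⟨Z, hZ⟩ := sys_back (m := m) (n := n) (K := K) (r := r) (d := dd E A b)
      (μ := (1 / 2) ^ (E + 1))
      (w := fun j => (if h : j < n then x ⟨j, h⟩ else 1) / (1 / 2) ^ (E + 1)) hK hr (by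
        simp only [lt_irrefl, dite_false]
        rw [mul_one_div, div_self hμ.ne']) (fun i hi => by
        have h1 := hpos i hi
        have e : ∑ c ∈ Finset.range (n + 1), dd E A b i c *
            ((if h : c < n then x ⟨c, h⟩ else 1) / (1 / 2) ^ (E + 1)) =
            (∑ c ∈ Finset.range (n + 1), dd E A b i c * (if h : c < n then x ⟨c, h⟩ else 1)) /
              (1 / 2) ^ (E + 1) := by
          rw [Finset.sum_div]
          exact Finset.sum_congr rfl fun j _ => by ring
        rw [e]
        exact div_nonneg h1 hμ.le)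
    refine ⟨fun J => Z J, fun I => ?_⟩
    rw [nM_mulVec]
    have e : rv m n K r ((1 / 2) ^ (E + 1)) (dd E A b) (exV fun J : Fin (K + r) => Z J)
        (nd m I) = rv m n K r ((1 / 2) ^ (E + 1)) (dd E A b) Z (nd m I) := by
      unfold rv
      refine Finset.sum_congr rfl fun c hc => ?_
      unfold exV
      rw [dif_pos (Finset.mem_range.mp hc)]
    rw [e]
    exact hZ I I.2

/-! ### The class -/

theorem nd_lt {I : ℕ} (hI : I < mH m K) : nd m I < m + 1 + K := by
  unfold mH at hI
  unfold nd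
  split_ifs <;> omega

theorem nd_mono {I J : ℕ} (h : I ≤ J) : nd m I ≤ nd m J := by
  unfold nd
  split_ifs <;> omega

theorem tv_near (u j : ℕ) :
    |tv m n K ((1 / 2) ^ (E + 1)) (dd E A b) u j - kr K u j| ≤ 1 / 2 ^ E := by
  unfold tv
  rw [add_sub_cancel_left]
  split_ifs
  · exact abs_dd_le E A b _ _
  · rw [abs_of_pos (by positivity), one_div_pow]
    exact one_div_le_one_div_of_le (by positivity) (pow_le_pow_right₀ (by norm_num) (by omega))
  · rw [abs_zero]
    positivity

/-- The new system is in the class. -/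
theorem nM_class (k m n : ℕ) (A : Matrix (Fin m) (Fin n) ℝ) (b : Fin m → ℝ) :
    HighOrder k (mH m (kH k m n)) (kH k m n + rH m n)
      (nM (tH k m n) (kH k m n) (rH m n) A b) (vM m (kH k m n)) := by
  have hK := kH_pos k m n
  have hr := rH_pos m n
  refine ⟨rH m n, m + 1 + kH k m n, fun u j => tv m n (kH k m n) ((1 / 2) ^ (tH k m n + 1))
    (dd (tH k m n) A b) u j, fun I => ⟨nd m I, nd_lt _ I.2⟩, ⟨m, by unfold mH; omega⟩,
    ?_, ?_, ?_, ?_, ?_, ?_, ?_⟩
  · calc rH m n ^ k ≤ rH m n ^ (k + 1) := Nat.pow_le_pow_right hr (by omega)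
      _ = kH k m n := rfl
      _ ≤ _ := by omega
  · have := rH_m m n
    unfold mH
    omega
  · intro s f g hs hf hg
    have h := near_pos (s := s) (p := m + 1 + kH k m n) (N := nH k m n) (K := kH k m n)
      (by unfold nH; omega) (by unfold nH; omega) (by omega) (fun i => (f i : ℕ))
      (fun i => (g i : ℕ)) (fun i j h => hf h) (fun i j h => hg h) (fun i => (f i).2)
      (fun i => (g i).2) (tv m n (kH k m n) ((1 / 2) ^ (tH k m n + 1)) (dd (tH k m n) A b))
      (fun u j _ _ => by
        refine (tv_near _ _ A b u j).trans ?_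
        refine one_div_le_one_div_of_le (by positivity) (pow_le_pow_right₀ (by norm_num) ?_)
        unfold tH
        omega)
    exact h
  · intro u j
    have h1 := tv_near (tH k m n) (kH k m n) A b u j
    have e : kH k m n + rH m n - rH m n - 1 = kH k m n - 1 := by omega
    have e2 : ((kr (kH k m n) u j : ℕ) : ℝ) =
        (1 + ((u : ℕ) + 1 : ℝ) * ((j : ℕ) + 1)) ^ (kH k m n - 1) := by
      unfold kr
      push_cast
      rfl
    rw [e2] at h1
    rw [e]
    refine h1.trans ?_
    refine one_div_le_one_div_of_le (by positivity) (pow_le_pow_right₀ (by norm_num) ?_)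
    unfold tH nH
    omega
  · intro I J h
    exact nd_mono h
  · intro I
    by_cases h : sn m I
    · right
      intro j
      unfold nM
      rw [if_pos h]
      ring
    · left
      intro j
      unfold nM
      rw [if_neg h, one_mul]
  · intro I
    unfold vM
    simp only [Fin.ext_iff]

/-! ### The program -/

/-- The largest base of a power. -/
def pH (m K r : ℕ) : ℕ := 1 + (m + 1 + K) * (K + r)

/-- Writing integers. -/
def prI (P : ℕ) : List Instr := (List.range (P + 1)).map fun t =>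
  if t = 0 then ⟨Op.add, [20, t], [3], [3]⟩ else ⟨Op.add, [20, t], [20, t - 1], [2]⟩

/-- Writing powers. -/
def prP (P K : ℕ) : List Instr := (List.range ((P + 1) * K)).map fun t =>
  if t % K = 0 then ⟨Op.add, [21, t / K, t % K], [2], [3]⟩
  else ⟨Op.mul, [21, t / K, t % K], [21, t / K, t % K - 1], [20, t / K]⟩

/-- The base of the power in an entry. -/
def nv (m I J : ℕ) : ℕ := 1 + (nd m I + 1) * (J + 1)

/-- The second summand of an entry. -/
def xt (E m n K I J : ℕ) : Reg :=
  if I < m ∧ K ≤ J ∧ J ≤ K + n then [11, I * (n + 1) + (J - K)]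
  else if I = m ∧ J = K + n then [8, E + 1] else [3]

/-- The instruction for an entry. -/
def enH (E m n K I J : ℕ) : Instr :=
  if sn m I then ⟨Op.sub, [0, I, J], [3], [21, nv m I J, K - 1]⟩
  else ⟨Op.add, [0, I, J], [21, nv m I J, K - 1], xt E m n K I J⟩

/-- Writing the matrix. -/
def pr2a (E m n K r : ℕ) : List Instr :=
  (List.range (mH m K * (K + r))).map fun t => enH E m n K (t / (K + r)) (t % (K + r))

/-- Writing the right-hand side. -/
def pr2b (m K : ℕ) : List Instr := (List.range (mH m K)).map fun I =>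
  ⟨Op.add, [1, I], if I = m then [2] else [3], [3]⟩

/-- Cleaning up. -/
def pr3 (E m n K r : ℕ) : List Instr :=
  (pr1 E m n ++ (prI (pH m K r) ++ prP (pH m K r) K)).map fun I => ⟨Op.sub, I.dst, [3], [3]⟩

/-- The program. -/
def prg (E K r m n : ℕ) : List Instr :=
  pr1 E m n ++ ((prI (pH m K r) ++ prP (pH m K r) K) ++
    ((pr2a E m n K r ++ pr2b m K) ++ pr3 E m n K r))

/-- The values of the integers and powers. -/
noncomputable def VX : Reg → ℝ
  | [2] => 1
  | [20, t] => t
  | [21, v, s] => (v : ℝ) ^ s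
  | _ => 0

/-- The values after the third part. -/
noncomputable def V2 (E K r : ℕ) {m n : ℕ} (A : Matrix (Fin m) (Fin n) ℝ) (b : Fin m → ℝ) :
    Reg → ℝ
  | [0, I, J] => start (nM E K r A b) (vM m K) [0, I, J]
  | [1, I] => start (nM E K r A b) (vM m K) [1, I]
  | [2] => 1
  | [3] => 0
  | [8, t] => (1 / 2) ^ t
  | [11, t] => th E A b * ext A b (t / (n + 1)) (t % (n + 1))
  | [21, v, s] => (v : ℝ) ^ s
  | _ => 0

/-- The registers used in the third part. -/
def E2 (E m n K P : ℕ) : Set Reg :=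
  {r | r = [2] ∨ r = [3] ∨ r = [8, E + 1] ∨ (∃ t, t < m * (n + 1) ∧ r = [11, t]) ∨
    ∃ v, v ≤ P ∧ r = [21, v, K - 1]}

theorem prI_dst (P : ℕ) (r : Reg) : r ∈ (prI P).map Instr.dst ↔ ∃ t, t ≤ P ∧ r = [20, t] := by
  constructor
  · intro h
    obtain ⟨I, hI, rfl⟩ := List.mem_map.mp h
    obtain ⟨t, ht, rfl⟩ := List.mem_map.mp hI
    have ht := List.mem_range.mp ht
    exact ⟨t, by omega, by split_ifs <;> rfl⟩
  · rintro ⟨t, ht, rfl⟩
    exact List.mem_map.mpr ⟨_, List.mem_map.mpr ⟨t, List.mem_range.mpr (by omega), rfl⟩,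
      by split_ifs <;> rfl⟩

theorem prP_dst {P K : ℕ} (hK : 1 ≤ K) (r : Reg) : r ∈ (prP P K).map Instr.dst ↔
    ∃ v s, v ≤ P ∧ s < K ∧ r = [21, v, s] := by
  constructor
  · intro h
    obtain ⟨I, hI, rfl⟩ := List.mem_map.mp h
    obtain ⟨t, ht, rfl⟩ := List.mem_map.mp hI
    have ht := List.mem_range.mp ht
    have h1 : t / K < P + 1 := Nat.div_lt_of_lt_mul (by rwa [Nat.mul_comm])
    exact ⟨t / K, t % K, by omega, Nat.mod_lt _ hK, by split_ifs <;> rfl⟩
  · rintro ⟨v, s, hv, hs, rfl⟩
    have e1 : (K * v + s) / K = v := by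
      rw [Nat.mul_add_div (by omega), Nat.div_eq_of_lt hs, add_zero]
    have e2 : (K * v + s) % K = s := by
      rw [Nat.mul_add_mod, Nat.mod_eq_of_lt hs]
    refine List.mem_map.mpr ⟨_, List.mem_map.mpr ⟨K * v + s, List.mem_range.mpr ?_, rfl⟩, ?_⟩
    · have h1 : K * (v + 1) ≤ K * (P + 1) := Nat.mul_le_mul_left _ (by omega)
      rw [Nat.mul_succ] at h1
      rw [Nat.mul_comm (P + 1) K]
      omega
    · rw [e1, e2]
      split_ifs <;> rfl

theorem prX_good (P : ℕ) {K : ℕ} (hK : 1 ≤ K) : Good VX (prI P ++ prP P K) {r | r = [2] ∨ r = [3]} := by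
  refine good_append (good_range _ _ fun s hs => ?_) (good_range _ _ fun s hs => ?_)
  · by_cases h : s = 0
    · rw [if_pos h]
      refine ⟨Or.inl (Or.inr rfl), Or.inl (Or.inr rfl), ?_, nofun⟩
      change ((s : ℕ) : ℝ) = 0 + 0
      rw [h]
      norm_num
    · rw [if_neg h]
      refine ⟨Or.inr ⟨s - 1, by omega, ?_⟩, Or.inl (Or.inl rfl), ?_, nofun⟩
      · split_ifs <;> rfl
      · change ((s : ℕ) : ℝ) = ((s - 1 : ℕ) : ℝ) + 1
        rw [Nat.cast_sub (by omega)]
        norm_num
  · by_cases h : s % K = 0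
    · rw [if_pos h]
      refine ⟨Or.inl (Or.inl (Or.inl rfl)), Or.inl (Or.inl (Or.inr rfl)), ?_, nofun⟩
      change ((s / K : ℕ) : ℝ) ^ (s % K) = 1 + 0
      rw [h]
      norm_num
    · rw [if_neg h]
      have hq : s / K < P + 1 := Nat.div_lt_of_lt_mul (by rwa [Nat.mul_comm])
      obtain ⟨q, a, ha, e⟩ : ∃ q a, a + 1 < K ∧ s = K * q + (a + 1) :=
        ⟨s / K, s % K - 1, by have := Nat.mod_lt s hK; omega, by
          have := Nat.div_add_mod s K
          omega⟩
      have e1 : s / K = q := by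
        rw [e, Nat.mul_add_div (by omega), Nat.div_eq_of_lt ha, add_zero]
      have e2 : s % K = a + 1 := by
        rw [e, Nat.mul_add_mod, Nat.mod_eq_of_lt ha]
      have e3 : (s - 1) / K = q := by
        rw [e, show K * q + (a + 1) - 1 = K * q + a by omega, Nat.mul_add_div (by omega),
          Nat.div_eq_of_lt (by omega), add_zero]
      have e4 : (s - 1) % K = a := by
        rw [e, show K * q + (a + 1) - 1 = K * q + a by omega, Nat.mul_add_mod,
          Nat.mod_eq_of_lt (by omega)]
      refine ⟨Or.inr ⟨s - 1, by omega, ?_⟩, Or.inl (Or.inr ?_), ?_, nofun⟩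
      · simp only [e1, e2, e3, e4]
        split_ifs <;> rfl
      · have := (prI_dst P [20, s / K]).mpr ⟨s / K, by omega, rfl⟩
        exact List.mem_map.mp this
      · change ((s / K : ℕ) : ℝ) ^ (s % K) = ((s / K : ℕ) : ℝ) ^ (s % K - 1) * ((s / K : ℕ) : ℝ)
        rw [e2, Nat.add_sub_cancel, pow_succ]

theorem enH_dst (I J : ℕ) : (enH E m n K I J).dst = [0, I, J] := by
  unfold enH
  split_ifs <;> rfl

theorem nv_le {I J : ℕ} (hI : I < mH m K) (hJ : J < K + r) : nv m I J ≤ pH m K r := by
  unfold nv pH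
  have h1 := nd_lt K hI
  have h2 : (nd m I + 1) * (J + 1) ≤ (m + 1 + K) * (K + r) := Nat.mul_le_mul h1 hJ
  omega

theorem enH_good (I J : ℕ) (hI : I < mH m K) (hJ : J < K + r) :
    IGood (V2 E K r A b) (E2 E m n K (pH m K r)) (enH E m n K I J) := by
  have h3 : ([3] : Reg) ∈ E2 E m n K (pH m K r) := Or.inr (Or.inl rfl)
  have h8 : ([8, E + 1] : Reg) ∈ E2 E m n K (pH m K r) := Or.inr (Or.inr (Or.inl rfl))
  have h21 : ([21, nv m I J, K - 1] : Reg) ∈ E2 E m n K (pH m K r) :=
    Or.inr (Or.inr (Or.inr (Or.inr ⟨_, nv_le K r hI hJ, rfl⟩)))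
  have ekr : ((kr K (nd m I) J : ℕ) : ℝ) = ((nv m I J : ℕ) : ℝ) ^ (K - 1) := by
    unfold kr nv
    push_cast
    rfl
  have e : V2 E K r A b [0, I, J] = (if sn m I then -1 else 1) *
      tv m n K ((1 / 2) ^ (E + 1)) (dd E A b) (nd m I) J := by
    change (if h : I < mH m K ∧ J < K + r then nM E K r A b ⟨I, h.1⟩ ⟨J, h.2⟩ else 0) = _
    rw [dif_pos ⟨hI, hJ⟩]
    rfl
  unfold enH
  by_cases hs : sn m I
  · rw [if_pos hs]
    refine ⟨h3, h21, ?_, nofun⟩
    change V2 E K r A b [0, I, J] = 0 - ((nv m I J : ℕ) : ℝ) ^ (K - 1)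
    have h4 : m < nd m I := by
      unfold sn at hs
      unfold nd
      rw [if_neg (by omega)]
      omega
    rw [e, if_pos hs, ← ekr]
    unfold tv
    rw [if_neg (by omega), if_neg (by omega)]
    ring
  · rw [if_neg hs]
    refine ⟨h21, ?_, ?_, nofun⟩
    · change xt E m n K I J ∈ _
      unfold xt
      split_ifs with c1 c2
      · refine Or.inr (Or.inr (Or.inr (Or.inl ⟨_, ?_, rfl⟩)))
        obtain ⟨g1, g2, g3⟩ := c1
        exact idx_lt g1 (by omega)
      · exact h8
      · exact h3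
    · change V2 E K r A b [0, I, J] = ((nv m I J : ℕ) : ℝ) ^ (K - 1) +
        V2 E K r A b (xt E m n K I J)
      rw [e, if_neg hs, ← ekr, one_mul]
      unfold tv xt
      congr 1
      by_cases c0 : I ≤ m
      · have e1 : nd m I = I := by unfold nd; rw [if_pos c0]
        rw [e1]
        by_cases c1 : I < m ∧ K ≤ J ∧ J ≤ K + n
        · rw [if_pos c1, if_pos c1]
          obtain ⟨g1, g2, g3⟩ := c1
          change _ = th E A b * ext A b ((I * (n + 1) + (J - K)) / (n + 1))
            ((I * (n + 1) + (J - K)) % (n + 1))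
          rw [idx_div _ _ (by omega), idx_mod _ _ (by omega)]
          rfl
        · rw [if_neg c1, if_neg c1]
          by_cases c2 : I = m ∧ J = K + n
          · rw [if_pos c2, if_pos c2]
            rfl
          · rw [if_neg c2, if_neg c2]
            rfl
      · have h4 : m < nd m I := by
          unfold nd
          rw [if_neg c0]
          omega
        rw [if_neg (by omega), if_neg (by omega), if_neg (by omega), if_neg (by omega)]
        rfl

theorem pr2_good (hK : 1 ≤ K) :
    Good (V2 E K r A b) (pr2a E m n K r ++ pr2b m K) (E2 E m n K (pH m K r)) := by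
  have h2 : ([2] : Reg) ∈ E2 E m n K (pH m K r) := Or.inl rfl
  have h3 : ([3] : Reg) ∈ E2 E m n K (pH m K r) := Or.inr (Or.inl rfl)
  refine good_par fun I hI => ?_
  rcases List.mem_append.mp hI with hI | hI
  · obtain ⟨t, ht, rfl⟩ := List.mem_map.mp hI
    have ht := List.mem_range.mp ht
    exact enH_good E K r A b _ _ (Nat.div_lt_of_lt_mul (by rwa [Nat.mul_comm]))
      (Nat.mod_lt _ (by omega))
  · obtain ⟨t, ht, rfl⟩ := List.mem_map.mp hI
    have ht := List.mem_range.mp ht
    refine ⟨?_, h3, ?_, nofun⟩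
    · by_cases h : t = m
      · simp only [if_pos h]; exact h2
      · simp only [if_neg h]; exact h3
    · have e : V2 E K r A b [1, t] = if t = m then 1 else 0 := by
        change (if h : t < mH m K then vM m K ⟨t, h⟩ else 0) = _
        rw [dif_pos ht]
        rfl
      simp only [e]
      by_cases h : t = m
      · simp only [if_pos h]
        change (1 : ℝ) = 1 + 0
        norm_num
      · simp only [if_neg h]
        change (0 : ℝ) = 0 + 0
        norm_num

/-- The targets of the third part. -/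
theorem pr2_dst (hK : 1 ≤ K) (q : Reg) :
    q ∈ (pr2a E m n K r ++ pr2b m K).map Instr.dst ↔
      (∃ I J, I < mH m K ∧ J < K + r ∧ q = [0, I, J]) ∨ ∃ I, I < mH m K ∧ q = [1, I] := by
  rw [List.map_append, List.mem_append]
  refine or_congr ?_ ?_
  · constructor
    · intro h
      obtain ⟨I, hI, rfl⟩ := List.mem_map.mp h
      obtain ⟨t, ht, rfl⟩ := List.mem_map.mp hI
      have ht := List.mem_range.mp ht
      exact ⟨_, _, Nat.div_lt_of_lt_mul (by rwa [Nat.mul_comm]), Nat.mod_lt _ (by omega),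
        enH_dst _ _ _ _⟩
    · rintro ⟨I, J, hI, hJ, rfl⟩
      refine List.mem_map.mpr ⟨enH E m n K I J, List.mem_map.mpr ⟨(K + r) * I + J, ?_, ?_⟩,
        enH_dst _ _ _ _⟩
      · rw [List.mem_range]
        have h1 : (K + r) * (I + 1) ≤ (K + r) * mH m K := Nat.mul_le_mul_left _ hI
        rw [Nat.mul_succ] at h1
        rw [Nat.mul_comm (mH m K) (K + r)]
        omega
      · rw [Nat.mul_add_div (by omega), Nat.div_eq_of_lt hJ, add_zero, Nat.mul_add_mod,
          Nat.mod_eq_of_lt hJ]
  · constructor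
    · intro h
      obtain ⟨I, hI, rfl⟩ := List.mem_map.mp h
      obtain ⟨t, ht, rfl⟩ := List.mem_map.mp hI
      exact ⟨t, List.mem_range.mp ht, rfl⟩
    · rintro ⟨I, hI, rfl⟩
      exact List.mem_map.mpr ⟨_, List.mem_map.mpr ⟨I, List.mem_range.mpr hI, rfl⟩, rfl⟩

/-- The targets of the first two parts. -/
theorem pr1X_dst (hK : 1 ≤ K) (q : Reg)
    (hq : q ∈ (pr1 E m n).map Instr.dst ∨ q ∈ (prI (pH m K r) ++ prP (pH m K r) K).map Instr.dst) :
    ∃ a l, q = a :: l ∧ 4 ≤ a := by
  rcases hq with h | h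
  · exact pr1_dst E _ h
  · rw [List.map_append, List.mem_append] at h
    rcases h with h | h
    · obtain ⟨t, -, rfl⟩ := (prI_dst _ _).mp h
      exact ⟨_, _, rfl, by omega⟩
    · obtain ⟨v, s, -, -, rfl⟩ := (prP_dst hK _).mp h
      exact ⟨_, _, rfl, by omega⟩

/-- The values computed. -/
noncomputable def vls (E K r : ℕ) {m n : ℕ} (A : Matrix (Fin m) (Fin n) ℝ) (b : Fin m → ℝ) :
    List ℝ :=
  ((pr1 E m n).map fun I => V1 E A b I.dst) ++
    (((prI (pH m K r) ++ prP (pH m K r) K).map fun I => VX I.dst) ++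
    (((pr2a E m n K r ++ pr2b m K).map fun I => V2 E K r A b I.dst) ++
    ((pr3 E m n K r).map fun _ => (0 : ℝ))))

/-- **The program writes the new system.** -/
theorem exec_prg (hK : 1 ≤ K) (hr : n + 1 ≤ r) : exec (prg E K r m n) (start A b) =
    some (start (nM E K r A b) (vM m K), vls E K r A b) := by
  unfold prg
  have h1 := exec_good (V1 E A b) (pr1 E m n) D0 (start A b) (V1_D0 _ A b) (pr1_good _ A b)
  rw [TELIM.exec_append _ _ _ _ _ h1]
  have nm : ∀ q : Reg, (∀ a l, q = a :: l → a < 4) →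
      q ∉ (pr1 E m n).map Instr.dst ∧ q ∉ (prI (pH m K r) ++ prP (pH m K r) K).map Instr.dst := by
    intro q hq
    constructor
    · intro h
      obtain ⟨a, l, g1, g2⟩ := pr1X_dst E K r hK q (Or.inl h)
      have := hq a l g1
      omega
    · intro h
      obtain ⟨a, l, g1, g2⟩ := pr1X_dst (m := m) (n := n) E K r hK q (Or.inr h)
      have := hq a l g1
      omega
  have nm2 := nm [2] (fun a l h => by simp only [List.cons.injEq] at h; omega)
  have nm3 := nm [3] (fun a l h => by simp only [List.cons.injEq] at h; omega)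
  have h2 := exec_good VX (prI (pH m K r) ++ prP (pH m K r) K) {q | q = [2] ∨ q = [3]}
    (fun q => if q ∈ (pr1 E m n).map Instr.dst then V1 E A b q else start A b q) (by
      rintro q (rfl | rfl)
      · rw [if_neg nm2.1]
        rfl
      · rw [if_neg nm3.1]
        rfl) (prX_good _ hK)
  rw [TELIM.exec_append _ _ _ _ _ h2]
  have h4 := exec_good (V2 E K r A b) (pr2a E m n K r ++ pr2b m K) (E2 E m n K (pH m K r))
    (fun q => if q ∈ (prI (pH m K r) ++ prP (pH m K r) K).map Instr.dst then VX q else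
      if q ∈ (pr1 E m n).map Instr.dst then V1 E A b q else start A b q) (by
      rintro q (rfl | rfl | rfl | ⟨t, ht, rfl⟩ | ⟨v, hv, rfl⟩)
      · rw [if_neg nm2.2, if_neg nm2.1]
        rfl
      · rw [if_neg nm3.2, if_neg nm3.1]
        rfl
      · rw [if_neg, if_pos]
        · rfl
        · refine List.mem_map.mpr ⟨⟨Op.mul, [8, E + 1], [8, E], [7, 1]⟩, ?_, rfl⟩
          simp only [pr1, List.mem_append]
          iterate 7 refine Or.inr ?_
          exact Or.inl (List.mem_map.mpr ⟨E, List.mem_range.mpr (by omega), rfl⟩)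
        · rw [List.map_append, List.mem_append, prI_dst, prP_dst hK]
          rintro (⟨t, -, h⟩ | ⟨v, s, -, -, h⟩)
          · simp at h
          · simp at h
      · rw [if_neg, if_pos]
        · rfl
        · refine List.mem_map.mpr ⟨⟨Op.mul, [11, t], [9], [4, t]⟩, ?_, rfl⟩
          simp only [pr1, List.mem_append]
          iterate 9 refine Or.inr ?_
          exact List.mem_map.mpr ⟨t, List.mem_range.mpr ht, rfl⟩
        · rw [List.map_append, List.mem_append, prI_dst, prP_dst hK]
          rintro (⟨t, -, h⟩ | ⟨v, s, -, -, h⟩)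
          · simp at h
          · simp at h
      · rw [if_pos]
        · rfl
        · rw [List.map_append, List.mem_append, prP_dst hK]
          exact Or.inr ⟨v, K - 1, hv, by omega, rfl⟩) (pr2_good E K r A b hK)
  rw [TELIM.exec_append _ _ _ _ _ h4]
  have h5 : Good (fun _ => (0 : ℝ)) (pr3 E m n K r) {[3]} := by
    refine good_par fun I hI => ?_
    obtain ⟨J, -, rfl⟩ := List.mem_map.mp hI
    refine ⟨rfl, rfl, ?_, nofun⟩
    change (0 : ℝ) = 0 - 0
    norm_num
  rw [exec_good _ _ {[3]} _ ?_ h5]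
  · simp only [Option.map_some, Option.some.injEq, Prod.mk.injEq]
    refine ⟨?_, ?_⟩
    · have ed : (pr3 E m n K r).map Instr.dst = (pr1 E m n).map Instr.dst ++
          (prI (pH m K r) ++ prP (pH m K r) K).map Instr.dst := by
        unfold pr3
        rw [List.map_map, ← List.map_append]
        rfl
      rw [ed]
      have hn : n ≤ K + r := by omega
      have hm : m ≤ mH m K := by unfold mH; omega
      funext q
      by_cases c1 : q ∈ (pr1 E m n).map Instr.dst ++
          (prI (pH m K r) ++ prP (pH m K r) K).map Instr.dst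
      · rw [if_pos c1]
        obtain ⟨a, l, rfl, g2⟩ := pr1X_dst E K r hK q (List.mem_append.mp c1)
        obtain ⟨a, rfl⟩ : ∃ a', a = a' + 4 := ⟨a - 4, by omega⟩
        rfl
      · rw [if_neg c1]
        rw [List.mem_append, not_or] at c1
        simp only [if_neg c1.1, if_neg c1.2]
        by_cases c2 : q ∈ (pr2a E m n K r ++ pr2b m K).map Instr.dst
        · rw [if_pos c2]
          rcases (pr2_dst E K r hK q).mp c2 with ⟨I, J, -, -, rfl⟩ | ⟨I, -, rfl⟩ <;> rfl
        · rw [if_neg c2]
          rw [pr2_dst E K r hK, not_or] at c2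
          obtain ⟨c3, c4⟩ := c2
          unfold start
          split
          · rename_i i j
            rw [dif_neg, dif_neg]
            · exact fun h => c3 ⟨i, j, h.1, h.2, rfl⟩
            · exact fun h => c3 ⟨i, j, by omega, by omega, rfl⟩
          · rename_i i
            rw [dif_neg, dif_neg]
            · exact fun h => c4 ⟨i, h, rfl⟩
            · exact fun h => c4 ⟨i, by omega, rfl⟩
          · rfl
          · rfl
    · rfl
  · rintro q rfl
    rw [if_neg, if_neg nm3.2, if_neg nm3.1]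
    · rfl
    · rw [pr2_dst E K r hK]
      rintro (⟨I, J, -, -, h⟩ | ⟨I, -, h⟩)
      · simp at h
      · simp at h

/-! ### Encoding lengths -/

/-- The bound. -/
def hH (E m n K r L : ℕ) : ℕ := K7.H40.PU.hg E m n L + ((pH m K r + 1) * (K + 1) + 1)

variable {E K r A b}

theorem sm_nat (v : ℕ) : Sm (v + 1) (v : ℝ) := by
  refine ⟨(v : ℚ), by push_cast; rfl, ?_, ?_⟩
  · simp only [Rat.num_natCast, Int.natAbs_natCast]
    exact Nat.lt_of_lt_of_le Nat.lt_two_pow_self (Nat.pow_le_pow_right (by omega) (by omega))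
  · simp only [Rat.den_natCast]
    exact Nat.one_lt_two_pow (by omega)

theorem sm_natpow (v s : ℕ) : Sm ((v + 1) * (s + 1)) ((v : ℝ) ^ s) := by
  induction s with
  | zero => exact (by simpa using sm_one : Sm 1 ((v : ℝ) ^ 0)).mono (by omega)
  | succ s ih =>
    rw [pow_succ]
    refine (ih.mul (sm_nat v)).mono ?_
    have : (v + 1) * (s + 1 + 1) = (v + 1) * (s + 1) + (v + 1) := by ring
    omega

theorem sm_pw {v s : ℕ} (hv : v ≤ pH m K r) (hs : s < K) :
    Sm ((pH m K r + 1) * (K + 1)) ((v : ℝ) ^ s) :=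
  (sm_natpow v s).mono (Nat.mul_le_mul (by omega) (by omega))

theorem sm_nM {L : ℕ} (hK : 1 ≤ K) (hA : ∀ i j, Sm L (ext A b i j)) (I : Fin (mH m K))
    (J : Fin (K + r)) : Sm (hH E m n K r L) (nM E K r A b I J) := by
  have h1 : 1 ≤ K7.H40.PU.hg E m n L := by unfold K7.H40.PU.hg; omega
  have h0 : Sm (hH E m n K r L)
      (tv m n K ((1 / 2) ^ (E + 1)) (dd E A b) (nd m I) J) := by
    unfold tv hH
    have e : ((kr K (nd m I) J : ℕ) : ℝ) = ((nv m I J : ℕ) : ℝ) ^ (K - 1) := by
      unfold kr nv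
      push_cast
      rfl
    rw [e]
    refine ((sm_pw (nv_le K r I.2 J.2) (by omega : K - 1 < K)).add (h' :=
      K7.H40.PU.hg E m n L) ?_).mono (by omega)
    split_ifs
    · exact K7.H40.PU.sm_dd hA _ _
    · exact (sm_pow (E + 1)).mono (by unfold K7.H40.PU.hg; omega)
    · exact sm_zero.mono h1
  unfold nM
  split_ifs
  · rw [neg_one_mul]
    exact h0.neg
  · rw [one_mul]
    exact h0

theorem sm_vM (L : ℕ) (I : Fin (mH m K)) : Sm (hH E m n K r L) (vM m K I) := by
  have h1 : 1 ≤ hH E m n K r L := by unfold hH; omega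
  unfold vM
  split_ifs
  · exact sm_one.mono h1
  · exact sm_zero.mono h1

theorem sm_vls {L : ℕ} (hK : 1 ≤ K) (hA : ∀ i j, Sm L (ext A b i j)) :
    ∀ v ∈ vls E K r A b, Sm (hH E m n K r L) v := by
  have h1 : 1 ≤ hH E m n K r L := by unfold hH; omega
  intro v hv
  unfold vls at hv
  rw [List.mem_append, List.mem_append, List.mem_append] at hv
  rcases hv with hv | hv | hv | hv
  · refine (K7.H40.PU.sm_vls (T := E) (N := 0) hA v ?_).mono (by unfold hH; omega)
    unfold K7.H40.PU.vls
    exact List.mem_append_left _ hv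
  · obtain ⟨I, hI, rfl⟩ := List.mem_map.mp hv
    have h2 : I.dst ∈ (prI (pH m K r) ++ prP (pH m K r) K).map Instr.dst :=
      List.mem_map.mpr ⟨I, hI, rfl⟩
    rw [List.map_append, List.mem_append, prI_dst, prP_dst hK] at h2
    rcases h2 with ⟨t, ht, h3⟩ | ⟨w, s, hw, hs, h3⟩
    · rw [h3]
      change Sm _ ((t : ℕ) : ℝ)
      refine (sm_nat t).mono ?_
      unfold hH
      have h4 : (pH m K r + 1) * 1 ≤ (pH m K r + 1) * (K + 1) := Nat.mul_le_mul_left _ (by omega)
      omega
    · rw [h3]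
      change Sm _ ((w : ℝ) ^ s)
      exact (sm_pw hw hs).mono (by unfold hH; omega)
  · obtain ⟨I, hI, rfl⟩ := List.mem_map.mp hv
    have h2 := (pr2_dst (m := m) (n := n) E K r hK I.dst).mp (List.mem_map.mpr ⟨I, hI, rfl⟩)
    rcases h2 with ⟨I', J', hI', hJ', h3⟩ | ⟨I', hI', h3⟩
    · rw [h3]
      change Sm _ (if h : I' < mH m K ∧ J' < K + r then nM E K r A b ⟨I', h.1⟩ ⟨J', h.2⟩ else 0)
      rw [dif_pos ⟨hI', hJ'⟩]
      exact sm_nM hK hA _ _
    · rw [h3]
      change Sm _ (if h : I' < mH m K then vM m K ⟨I', h⟩ else 0)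
      rw [dif_pos hI']
      exact sm_vM L _
  · obtain ⟨I, hI, rfl⟩ := List.mem_map.mp hv
    exact sm_zero.mono h1

theorem vls_length (E K r : ℕ) (A : Matrix (Fin m) (Fin n) ℝ) (b : Fin m → ℝ) :
    (vls E K r A b).length = 2 * (4 * (m * (n + 1)) + E + 6 + (pH m K r + 1 +
      (pH m K r + 1) * K)) + (mH m K * (K + r) + mH m K) := by
  simp only [vls, pr1, pr2a, pr2b, pr3, prI, prP, ph1, ph2, ph3, ph5, ph7, List.length_append,
    List.length_map, List.length_range, List.length_cons, List.length_nil]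
  ring

end Pool.Agent.H37.HO
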