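import Pool.Graph.R_pool_sql_team_seeded_35f281b4.K7.H40.PU.Ctl
import Pool.Agent.H37.HO.Store

set_option autoImplicit false

/-! The program is computed in polynomial time; the reduction. -/

namespace Pool.Agent.H37.HO

open Pool.Agent.NPC Pool.Agent.NPC.ER Pool.Agent.NPC.H612 Pool.Agent.H558R2 Pool.Agent.H622R3.SM
open Pool.Agent.R533.GU Pool.Agent.K7.H40.NU
open Pool.Agent.K7.H40.PU (pr1 p_pr1 IsRed red_iff)

variable {α : Type} [TEnc α]

attribute [local fun_prop] TPM.pInstr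

theorem u_rH {u v : α → ℕ} (hu : UPoly u) (hv : UPoly v) : UPoly (fun a => rH (u a) (v a)) := by
  unfold rH
  exact UPoly.mul (UPoly.add hu (UPoly.const 2)) (UPoly.add hv (UPoly.const 1))

theorem u_kH {u v : α → ℕ} (hu : UPoly u) (hv : UPoly v) (k : ℕ) :
    UPoly (fun a => kH k (u a) (v a)) := by
  unfold kH
  exact u_pow (u_rH hu hv) _

theorem u_nH {u v : α → ℕ} (hu : UPoly u) (hv : UPoly v) (k : ℕ) :
    UPoly (fun a => nH k (u a) (v a)) := by
  unfold nH
  exact UPoly.add (u_kH hu hv k) (u_rH hu hv)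

theorem u_mH {u w : α → ℕ} (hu : UPoly u) (hw : UPoly w) :
    UPoly (fun a => mH (u a) (w a)) := by
  unfold mH
  exact UPoly.add (UPoly.add hu (UPoly.const 1)) (UPoly.mul (UPoly.const 2) hw)

theorem u_pH {u w r : α → ℕ} (hu : UPoly u) (hw : UPoly w) (hr : UPoly r) :
    UPoly (fun a => pH (u a) (w a) (r a)) := by
  unfold pH
  exact UPoly.add (UPoly.const 1)
    (UPoly.mul (UPoly.add (UPoly.add hu (UPoly.const 1)) hw) (UPoly.add hw hr))

theorem u_tH {u v : α → ℕ} (hu : UPoly u) (hv : UPoly v) (k : ℕ) :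
    UPoly (fun a => tH k (u a) (v a)) := by
  unfold tH
  have h1 := u_nH hu hv k
  have h2 := u_kH hu hv k
  exact UPoly.add (u_pow h1 _) (UPoly.mul (UPoly.add (UPoly.mul (UPoly.add (UPoly.add hu
    (UPoly.const 1)) h2) h1) (UPoly.const 4)) (UPoly.mul h1 h1))

theorem p_nd {u I : α → ℕ} (hu : Poly u) (hI : Poly I) : Poly (fun a => nd (u a) (I a)) := by
  unfold nd
  fun_prop

theorem p_nv {u I J : α → ℕ} (hu : Poly u) (hI : Poly I) (hJ : Poly J) :
    Poly (fun a => nv (u a) (I a) (J a)) := by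
  have h1 := p_nd hu hI
  unfold nv
  fun_prop

theorem p_xt {e u v w I J : α → ℕ} (he : Poly e) (hu : Poly u) (hv : Poly v) (hw : Poly w)
    (hI : Poly I) (hJ : Poly J) :
    Poly (fun a => xt (e a) (u a) (v a) (w a) (I a) (J a)) := by
  unfold xt
  fun_prop

theorem p_enH {e u v w I J : α → ℕ} (he : Poly e) (hu : Poly u) (hv : Poly v) (hw : Poly w)
    (hI : Poly I) (hJ : Poly J) :
    Poly (fun a => enH (e a) (u a) (v a) (w a) (I a) (J a)) := by
  have h1 := p_nv hu hI hJ
  have h2 := p_xt he hu hv hw hI hJ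
  have h3 : Poly (fun a => decide (sn (u a) (I a))) := by
    unfold sn
    fun_prop
  have h4 : Poly (fun a => if decide (sn (u a) (I a)) = true then
      Instr.mk Op.sub [0, I a, J a] [3] [21, nv (u a) (I a) (J a), w a - 1]
      else Instr.mk Op.add [0, I a, J a] [21, nv (u a) (I a) (J a), w a - 1]
        (xt (e a) (u a) (v a) (w a) (I a) (J a))) :=
    Poly.ite (by fun_prop) (TPM.pInstr _ (by fun_prop) (by fun_prop) (by fun_prop))
      (TPM.pInstr _ (by fun_prop) (by fun_prop) h2)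
  refine h4.congr fun a => ?_
  unfold enH
  simp only [decide_eq_true_eq]

theorem p_prI {u : α → ℕ} (hu : UPoly u) : Poly (fun a => prI (u a)) := by
  have h1 := (UPoly.add hu (UPoly.const 1)).range
  unfold prI
  refine NPC.Poly.map h1 ?_
  exact Poly.ite (by fun_prop) (TPM.pInstr _ (by fun_prop) (by fun_prop) (by fun_prop))
    (TPM.pInstr _ (by fun_prop) (by fun_prop) (by fun_prop))

theorem p_prP {u w : α → ℕ} (hu : UPoly u) (hw : UPoly w) : Poly (fun a => prP (u a) (w a)) := by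
  have h1 := (UPoly.mul (UPoly.add hu (UPoly.const 1)) hw).range
  unfold prP
  refine NPC.Poly.map h1 ?_
  have h2 : Poly (fun p : α × ℕ => w p.1) := hw.toPoly.comp (Poly.fst Poly.id)
  have h3 : Poly (fun p : α × ℕ => p.2 / w p.1) := Poly.div (Poly.snd Poly.id) h2
  have h4 : Poly (fun p : α × ℕ => p.2 % w p.1) := Poly.mod (Poly.snd Poly.id) h2
  exact Poly.ite (by fun_prop) (TPM.pInstr _ (by fun_prop) (by fun_prop) (by fun_prop))
    (TPM.pInstr _ (by fun_prop) (by fun_prop) (by fun_prop))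

theorem p_pr2a {e u v w r : α → ℕ} (he : UPoly e) (hu : UPoly u) (hv : UPoly v) (hw : UPoly w)
    (hr : UPoly r) : Poly (fun a => pr2a (e a) (u a) (v a) (w a) (r a)) := by
  have h1 := (UPoly.mul (u_mH hu hw) (UPoly.add hw hr)).range
  unfold pr2a
  refine NPC.Poly.map h1 ?_
  have h2 : Poly (fun p : α × ℕ => w p.1 + r p.1) :=
    (UPoly.add hw hr).toPoly.comp (Poly.fst Poly.id)
  exact p_enH (he.toPoly.comp (Poly.fst Poly.id)) (hu.toPoly.comp (Poly.fst Poly.id))
    (hv.toPoly.comp (Poly.fst Poly.id)) (hw.toPoly.comp (Poly.fst Poly.id))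
    (Poly.div (Poly.snd Poly.id) h2) (Poly.mod (Poly.snd Poly.id) h2)

theorem p_pr2b {u w : α → ℕ} (hu : UPoly u) (hw : UPoly w) :
    Poly (fun a => pr2b (u a) (w a)) := by
  have h1 := (u_mH hu hw).range
  unfold pr2b
  refine NPC.Poly.map h1 ?_
  have h3 : Poly (fun p : α × ℕ => u p.1) := hu.toPoly.comp (Poly.fst Poly.id)
  have h4 : Poly (fun p : α × ℕ => if p.2 = u p.1 then ([2] : Reg) else [3]) :=
    Poly.ite (Poly.decide_eq (Poly.snd Poly.id) h3) (NPC.Poly.const _) (NPC.Poly.const _)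
  exact TPM.pInstr _ (by fun_prop) h4 (by fun_prop)

theorem p_pr3 {e u v w r : α → ℕ} (he : UPoly e) (hu : UPoly u) (hv : UPoly v) (hw : UPoly w)
    (hr : UPoly r) : Poly (fun a => pr3 (e a) (u a) (v a) (w a) (r a)) := by
  have h1 := p_pr1 hu hv he
  have h2 := p_prI (u_pH hu hw hr)
  have h3 := p_prP (u_pH hu hw hr) hw
  unfold pr3
  refine NPC.Poly.map (Poly.append h1 (Poly.append h2 h3)) ?_
  exact TPM.pInstr _ (p_dst.comp (Poly.snd Poly.id)) (by fun_prop) (by fun_prop)

theorem p_prg {e u v w r : α → ℕ} (he : UPoly e) (hw : UPoly w) (hr : UPoly r) (hu : UPoly u)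
    (hv : UPoly v) : Poly (fun a => prg (e a) (w a) (r a) (u a) (v a)) := by
  have h1 := p_pr1 hu hv he
  have h2 := p_prI (u_pH hu hw hr)
  have h3 := p_prP (u_pH hu hw hr) hw
  have h4 := p_pr2a he hu hv hw hr
  have h5 := p_pr2b hu hw
  have h6 := p_pr3 he hu hv hw hr
  unfold prg
  fun_prop

/-- The reduction program. -/
def red (k m n : ℕ) : List Instr := prg (tH k m n) (kH k m n) (rH m n) m n

theorem p_red (k : ℕ) {u v : α → ℕ} (hu : UPoly u) (hv : UPoly v) :
    Poly (fun a => red k (u a) (v a)) := by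
  unfold red
  exact p_prg (u_tH hu hv k) (u_kH hu hv k) (u_rH hu hv) hu hv

theorem red_computed (k : ℕ) :
    Computed (fun p : List Unit × List Unit => red k p.1.length p.2.length) :=
  t_COMP _ _ _ (p_red k (UPoly.length (Poly.fst Poly.id)) (UPoly.length (Poly.snd Poly.id)))

/-! ### Bounds -/

theorem rH_mono {m n m' n' : ℕ} (hm : m ≤ m') (hn : n ≤ n') : rH m n ≤ rH m' n' := by
  unfold rH
  exact Nat.mul_le_mul (by omega) (by omega)

theorem kH_mono {k m n m' n' : ℕ} (hm : m ≤ m') (hn : n ≤ n') : kH k m n ≤ kH k m' n' := by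
  unfold kH
  exact Nat.pow_le_pow_left (rH_mono hm hn) _

theorem nH_mono {k m n m' n' : ℕ} (hm : m ≤ m') (hn : n ≤ n') : nH k m n ≤ nH k m' n' := by
  unfold nH
  exact Nat.add_le_add (kH_mono hm hn) (rH_mono hm hn)

theorem pH_mono {m K r m' K' r' : ℕ} (hm : m ≤ m') (hK : K ≤ K') (hr : r ≤ r') :
    pH m K r ≤ pH m' K' r' := by
  unfold pH
  exact Nat.add_le_add_left (Nat.mul_le_mul (by omega) (by omega)) _

theorem mH_mono {m K m' K' : ℕ} (hm : m ≤ m') (hK : K ≤ K') : mH m K ≤ mH m' K' := by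
  unfold mH
  omega

theorem tH_mono {k m n m' n' : ℕ} (hm : m ≤ m') (hn : n ≤ n') : tH k m n ≤ tH k m' n' := by
  unfold tH
  have h1 := nH_mono (k := k) hm hn
  have h2 := kH_mono (k := k) hm hn
  refine Nat.add_le_add (Nat.pow_le_pow_left h1 _) (Nat.mul_le_mul (Nat.add_le_add_right
    (Nat.mul_le_mul (by omega) h1) _) (Nat.mul_le_mul h1 h1))

/-- The length of the list of numbers. -/
def lH (k m n : ℕ) : ℕ := 2 * (4 * (m * (n + 1)) + tH k m n + 6 +
  (pH m (kH k m n) (rH m n) + 1 + (pH m (kH k m n) (rH m n) + 1) * kH k m n)) +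
  (mH m (kH k m n) * (kH k m n + rH m n) + mH m (kH k m n))

/-- The bound of the encoding lengths. -/
def eH (k m n L : ℕ) : ℕ := hH (tH k m n) m n (kH k m n) (rH m n) L

theorem lH_mono {k m n x : ℕ} (hm : m ≤ x) (hn : n ≤ x) : lH k m n ≤ lH k x x := by
  unfold lH
  have h1 := tH_mono (k := k) hm hn
  have h2 := kH_mono (k := k) hm hn
  have h3 := rH_mono hm hn
  have h4 := pH_mono hm h2 h3
  have h5 := mH_mono hm h2
  have h6 : m * (n + 1) ≤ x * (x + 1) := Nat.mul_le_mul hm (by omega)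
  have h7 : (pH m (kH k m n) (rH m n) + 1) * kH k m n ≤
      (pH x (kH k x x) (rH x x) + 1) * kH k x x := Nat.mul_le_mul (by omega) h2
  have h8 : mH m (kH k m n) * (kH k m n + rH m n) ≤ mH x (kH k x x) * (kH k x x + rH x x) :=
    Nat.mul_le_mul h5 (by omega)
  omega

theorem eH_mono {k m n x : ℕ} (hm : m ≤ x) (hn : n ≤ x) : eH k m n x ≤ eH k x x x := by
  unfold eH hH K7.H40.PU.hg
  have h1 := tH_mono (k := k) hm hn
  have h2 := kH_mono (k := k) hm hn
  have h3 := rH_mono hm hn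
  have h4 := pH_mono hm h2 h3
  have h6 : m * (n + 1) * (2 * x + 1) ≤ x * (x + 1) * (2 * x + 1) :=
    Nat.mul_le_mul_right _ (Nat.mul_le_mul hm (by omega))
  have h7 : (pH m (kH k m n) (rH m n) + 1) * (kH k m n + 1) ≤
      (pH x (kH k x x) (rH x x) + 1) * (kH k x x + 1) := Nat.mul_le_mul (by omega) (by omega)
  omega

open Polynomial in
/-- There is a polynomial with the right values. -/
theorem exists_poly' (k : ℕ) : ∃ q : Polynomial ℕ, ∀ x,
    q.eval x = (mH x (kH k x x) + nH k x x) + lH k x x + eH k x x x := by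
  let Pr : Polynomial ℕ := (X + C 2) * (X + C 1)
  let PK : Polynomial ℕ := Pr ^ (k + 1)
  let PN : Polynomial ℕ := PK + Pr
  let PM : Polynomial ℕ := X + C 1 + C 2 * PK
  let PP : Polynomial ℕ := C 1 + (X + C 1 + PK) * (PK + Pr)
  let PT : Polynomial ℕ := PN ^ k + ((X + C 1 + PK) * PN + C 4) * (PN * PN)
  let PL : Polynomial ℕ := C 2 * (C 4 * (X * (X + C 1)) + PT + C 6 + (PP + C 1 + (PP + C 1) * PK)) +
    (PM * (PK + Pr) + PM)
  let PE : Polynomial ℕ := C 10 * (PT + C 1) + C 10 + X * (X + C 1) * (C 2 * X + C 1) + C 5 * X +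
    ((PP + C 1) * (PK + C 1) + C 1)
  have hr : ∀ x, Pr.eval x = rH x x := fun x => by simp [Pr, rH]
  have hK : ∀ x, PK.eval x = kH k x x := fun x => by
    change eval x (Pr ^ (k + 1)) = _
    rw [eval_pow, hr]
    rfl
  have hN : ∀ x, PN.eval x = nH k x x := fun x => by
    change eval x (PK + Pr) = _
    rw [eval_add, hr, hK]
    rfl
  have hM : ∀ x, PM.eval x = mH x (kH k x x) := fun x => by
    change eval x (X + C 1 + C 2 * PK) = _
    simp only [eval_add, eval_mul, eval_C, eval_X, hK]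
    rfl
  have hP : ∀ x, PP.eval x = pH x (kH k x x) (rH x x) := fun x => by
    change eval x (C 1 + (X + C 1 + PK) * (PK + Pr)) = _
    simp only [eval_add, eval_mul, eval_C, eval_X, hK, hr]
    rfl
  have hT : ∀ x, PT.eval x = tH k x x := fun x => by
    change eval x (PN ^ k + ((X + C 1 + PK) * PN + C 4) * (PN * PN)) = _
    simp only [eval_add, eval_mul, eval_C, eval_X, eval_pow, hK, hN]
    rfl
  have hL : ∀ x, PL.eval x = lH k x x := fun x => by
    change eval x (C 2 * (C 4 * (X * (X + C 1)) + PT + C 6 + (PP + C 1 + (PP + C 1) * PK)) +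
      (PM * (PK + Pr) + PM)) = _
    simp only [eval_add, eval_mul, eval_C, eval_X, hT, hP, hM, hK, hr]
    rfl
  have hE : ∀ x, PE.eval x = eH k x x x := fun x => by
    change eval x (C 10 * (PT + C 1) + C 10 + X * (X + C 1) * (C 2 * X + C 1) + C 5 * X +
      ((PP + C 1) * (PK + C 1) + C 1)) = _
    simp only [eval_add, eval_mul, eval_C, eval_X, hT, hP, hK]
    rfl
  refine ⟨(PM + PN) + PL + PE, fun x => ?_⟩
  simp only [eval_add, hN, hL, hE, hM]

theorem is_red (k : ℕ) : ∃ q : Polynomial ℕ, IsRed (fun _ _ _ _ => True) (HighOrder k)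
    (red k) (fun m n => mH m (kH k m n)) (fun m n => kH k m n + rH m n) q := by
  obtain ⟨q, hq⟩ := exists_poly' k
  refine ⟨q, fun m n hm hn => ?_⟩
  have hK := kH_pos k m n
  have h1 := hq (m + n)
  have h2 := nH_mono (k := k) (Nat.le_add_right m n) (Nat.le_add_left n m)
  have h3 := kH_mono (k := k) (Nat.le_add_right m n) (Nat.le_add_left n m)
  have h4 := mH_mono (Nat.le_add_right m n) h3
  have h5 := lH_mono (k := k) (Nat.le_add_right m n) (Nat.le_add_left n m)
  refine ⟨by change 1 ≤ mH m (kH k m n); unfold mH; omega,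
    by change 1 ≤ kH k m n + rH m n; omega,
    by change mH m (kH k m n) + nH k m n ≤ _; omega, fun A b _ => ?_⟩
  refine ⟨nM (tH k m n) (kH k m n) (rH m n) A b, vM m (kH k m n),
    vls (tH k m n) (kH k m n) (rH m n) A b,
    exec_prg _ _ _ A b hK (rH_n m n), ?_, nM_class k m n A b, nM_iff _ _ _ A b hK (rH_n m n),
    fun L hL hS => ?_⟩
  · rw [vls_length]
    change lH k m n ≤ _
    omega
  · have h6 := hq L
    have h7 := eH_mono (k := k) (show m ≤ L by omega) (show n ≤ L by omega)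
    have h8 : eH k m n L ≤ q.eval L := by omega
    exact ⟨fun v hv => (sm_vls hK hS v hv).mono h8, fun i j => (sm_nM hK hS i j).mono h8,
      fun i => (sm_vM L i).mono h8⟩

/-- The equivalences. -/
theorem main_iff (k : ℕ) (O : Set (List Bool)) :
    ((∃ α : Alg, PolyControl α ∧ DecidesOn O (HighOrder k) α) ↔
      ∃ α : Alg, PolyControl α ∧ DecidesOn O (fun _ _ _ _ => True) α) ∧
    ((∃ α : Alg, PolyControl α ∧ OracleFree α ∧ DecidesOn O (HighOrder k) α) ↔
      ∃ α : Alg, PolyControl α ∧ OracleFree α ∧ DecidesOn O (fun _ _ _ _ => True) α) := by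
  obtain ⟨q, hq⟩ := is_red k
  exact red_iff hq (fun _ _ _ _ _ => trivial)
    (u_mH TUP.u_m (u_kH TUP.u_m TUP.u_n k))
    (UPoly.add (u_kH TUP.u_m TUP.u_n k) (u_rH TUP.u_m TUP.u_n))
    (p_red k TUP.u_m TUP.u_n) O

end Pool.Agent.H37.HO
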