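import Pool.Agent.H37.HO.Vand

/-! Matrices which are near a totally positive integer matrix. -/

set_option autoImplicit false

namespace Pool.Agent.H37.HO

open Matrix Finset

theorem prod_near {ι : Type} [DecidableEq ι] (s : Finset ι) (a b : ι → ℝ) {C ε : ℝ} (hC : 1 ≤ C)
    (hε : 0 ≤ ε) (ha : ∀ i ∈ s, |a i| ≤ C) (hb : ∀ i ∈ s, |b i| ≤ C)
    (h : ∀ i ∈ s, |a i - b i| ≤ ε) :
    |∏ i ∈ s, a i| ≤ C ^ s.card ∧
      |∏ i ∈ s, a i - ∏ i ∈ s, b i| ≤ s.card * (C ^ s.card * ε) := by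
  induction s using Finset.induction_on with
  | empty => simp
  | insert i s hi ih =>
    obtain ⟨h1, h2⟩ := ih (fun j hj => ha j (mem_insert_of_mem hj))
      (fun j hj => hb j (mem_insert_of_mem hj)) (fun j hj => h j (mem_insert_of_mem hj))
    have ha' := ha i (mem_insert_self _ _)
    have hb' := hb i (mem_insert_self _ _)
    have h' := h i (mem_insert_self _ _)
    have hC0 : (0 : ℝ) ≤ C := by linarith
    have hCs : 0 ≤ C ^ s.card := pow_nonneg hC0 _
    rw [prod_insert hi, prod_insert hi, card_insert_of_notMem hi, abs_mul]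
    refine ⟨?_, ?_⟩
    · rw [pow_succ, mul_comm]
      exact mul_le_mul h1 ha' (abs_nonneg _) hCs
    · have e : a i * ∏ j ∈ s, a j - b i * ∏ j ∈ s, b j =
          (a i - b i) * ∏ j ∈ s, a j + b i * (∏ j ∈ s, a j - ∏ j ∈ s, b j) := by ring
      rw [e]
      refine (abs_add_le _ _).trans ?_
      rw [abs_mul, abs_mul]
      have h3 : |a i - b i| * |∏ j ∈ s, a j| ≤ ε * C ^ s.card :=
        mul_le_mul h' h1 (abs_nonneg _) hε
      have h4 : |b i| * |∏ j ∈ s, a j - ∏ j ∈ s, b j| ≤ C * (s.card * (C ^ s.card * ε)) :=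
        mul_le_mul hb' h2 (abs_nonneg _) hC0
      have h5 : ε * C ^ s.card ≤ C ^ (s.card + 1) * ε := by
        rw [mul_comm]
        refine mul_le_mul_of_nonneg_right ?_ hε
        exact pow_le_pow_right₀ hC (by omega)
      push_cast
      have h6 : C * (s.card * (C ^ s.card * ε)) = s.card * (C ^ (s.card + 1) * ε) := by ring
      rw [h6] at h4
      linarith

theorem det_near {s : ℕ} (A B : Matrix (Fin s) (Fin s) ℝ) {C ε : ℝ} (hC : 1 ≤ C)
    (hε : 0 ≤ ε) (ha : ∀ i j, |A i j| ≤ C) (hb : ∀ i j, |B i j| ≤ C)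
    (h : ∀ i j, |A i j - B i j| ≤ ε) :
    |A.det - B.det| ≤ (s.factorial : ℝ) * (s * (C ^ s * ε)) := by
  rw [Matrix.det_apply', Matrix.det_apply', ← Finset.sum_sub_distrib]
  refine (Finset.abs_sum_le_sum_abs _ _).trans ?_
  have hcard : (Finset.univ : Finset (Equiv.Perm (Fin s))).card = s.factorial := by
    rw [Finset.card_univ, Fintype.card_perm, Fintype.card_fin]
  calc _ ≤ ∑ _σ : Equiv.Perm (Fin s), ((s : ℝ) * (C ^ s * ε)) := by
        refine Finset.sum_le_sum fun σ _ => ?_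
        rw [← mul_sub, abs_mul]
        have h1 : |(((Equiv.Perm.sign σ : ℤ) : ℝ))| = 1 := by
          rcases Int.units_eq_one_or (Equiv.Perm.sign σ) with h | h <;> rw [h] <;> simp
        rw [h1, one_mul]
        have h2 := (prod_near (Finset.univ : Finset (Fin s)) (fun i => A (σ i) i)
          (fun i => B (σ i) i) hC hε (fun i _ => ha _ _) (fun i _ => hb _ _)
          (fun i _ => h _ _)).2
        rw [Finset.card_univ, Fintype.card_fin] at h2
        exact h2
    _ = _ := by rw [Finset.sum_const, hcard, nsmul_eq_mul]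

/-- The kernel. -/
def kr (K u j : ℕ) : ℕ := (1 + (u + 1) * (j + 1)) ^ (K - 1)

theorem kr_det_pos {s K : ℕ} (hs : s ≤ K) (f g : Fin s → ℕ) (hf : StrictMono f)
    (hg : StrictMono g) : 1 ≤ (Matrix.of fun i j => ((kr K (f i) (g j) : ℕ) : ℝ)).det := by
  have h1 := ker_pos (r := s) (K := K - 1) (by omega) (fun i => ((f i : ℝ) + 1))
    (fun i => ((g i : ℝ) + 1)) (fun i => by positivity) (fun i => by positivity)
    (fun i j h => by have := hf h; simpa using this) (fun i j h => by have := hg h; simpa using this)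
  have e : (Matrix.of fun i j => ((kr K (f i) (g j) : ℕ) : ℝ)) =
      (Matrix.of fun i j => (kr K (f i) (g j) : ℤ)).map (Int.castRingHom ℝ) := by
    ext i j
    simp
  have e2 : (Matrix.of fun i j => ((kr K (f i) (g j) : ℕ) : ℝ)) =
      Matrix.of fun i j => (1 + ((f i : ℝ) + 1) * ((g j : ℝ) + 1)) ^ (K - 1) := by
    ext i j
    simp [kr]
  have e3 : ((Matrix.of fun i j => (kr K (f i) (g j) : ℤ)).map (Int.castRingHom ℝ)).det =
      (((Matrix.of fun i j => (kr K (f i) (g j) : ℤ)).det : ℤ) : ℝ) :=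
    (RingHom.map_det (Int.castRingHom ℝ) _).symm
  rw [← e2, e, e3] at h1
  rw [e, e3]
  have h2 : (0 : ℤ) < (Matrix.of fun i j => (kr K (f i) (g j) : ℤ)).det := by exact_mod_cast h1
  exact_mod_cast h2

theorem kr_le {p N K u j : ℕ} (hu : u < p) (hj : j < N) (hK : K ≤ N) :
    kr K u j ≤ 2 ^ ((1 + p * N) * N) := by
  unfold kr
  have h1 : (u + 1) * (j + 1) ≤ p * N := Nat.mul_le_mul hu hj
  calc (1 + (u + 1) * (j + 1)) ^ (K - 1) ≤ (1 + p * N) ^ (K - 1) :=
        Nat.pow_le_pow_left (by omega) _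
    _ ≤ (1 + p * N) ^ N := Nat.pow_le_pow_right (by omega) (by omega)
    _ ≤ (2 ^ (1 + p * N)) ^ N := Nat.pow_le_pow_left (Nat.lt_two_pow_self).le _
    _ = 2 ^ ((1 + p * N) * N) := (pow_mul _ _ _).symm

theorem small_prod {s p N : ℕ} (hs : s ≤ N) (hN : 1 ≤ N) :
    (s.factorial : ℝ) * (s * ((2 ^ ((2 + p * N) * N)) ^ s *
      (1 / 2 ^ ((p * N + 4) * (N * N))))) < 1 := by
  have h1 : s.factorial ≤ 2 ^ (N * N) := by
    calc s.factorial ≤ s ^ s := Nat.factorial_le_pow s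
      _ ≤ N ^ s := Nat.pow_le_pow_left hs _
      _ ≤ N ^ N := Nat.pow_le_pow_right hN hs
      _ ≤ (2 ^ N) ^ N := Nat.pow_le_pow_left (Nat.lt_two_pow_self).le _
      _ = 2 ^ (N * N) := (pow_mul _ _ _).symm
  have h2 : s < 2 ^ (N * N) := by
    calc s ≤ N := hs
      _ < 2 ^ N := Nat.lt_two_pow_self
      _ ≤ 2 ^ (N * N) := Nat.pow_le_pow_right (by omega) (Nat.le_mul_self N)
  have h3 : (2 ^ ((2 + p * N) * N)) ^ s ≤ 2 ^ ((2 + p * N) * (N * N)) := by
    calc (2 ^ ((2 + p * N) * N)) ^ s ≤ (2 ^ ((2 + p * N) * N)) ^ N :=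
          Nat.pow_le_pow_right (by positivity) hs
      _ = 2 ^ ((2 + p * N) * (N * N)) := by rw [← pow_mul]; ring_nf
  have h4 : s.factorial * (s * (2 ^ ((2 + p * N) * N)) ^ s) < 2 ^ ((p * N + 4) * (N * N)) := by
    have e : 2 ^ ((p * N + 4) * (N * N)) =
        2 ^ (N * N) * (2 ^ (N * N) * 2 ^ ((2 + p * N) * (N * N))) := by
      rw [← pow_add, ← pow_add]
      ring_nf
    rw [e]
    calc s.factorial * (s * (2 ^ ((2 + p * N) * N)) ^ s)
        ≤ 2 ^ (N * N) * (s * (2 ^ ((2 + p * N) * N)) ^ s) := Nat.mul_le_mul_right _ h1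
      _ < 2 ^ (N * N) * (2 ^ (N * N) * 2 ^ ((2 + p * N) * (N * N))) := by
          refine Nat.mul_lt_mul_of_pos_left ?_ (by positivity)
          exact Nat.mul_lt_mul_of_lt_of_le h2 h3 (by positivity)
  have h5 : ((s.factorial * (s * (2 ^ ((2 + p * N) * N)) ^ s) : ℕ) : ℝ) <
      ((2 ^ ((p * N + 4) * (N * N)) : ℕ) : ℝ) := by exact_mod_cast h4
  push_cast at h5
  have h6 : (0 : ℝ) < 2 ^ ((p * N + 4) * (N * N)) := by positivity
  calc (s.factorial : ℝ) * (s * ((2 ^ ((2 + p * N) * N)) ^ s *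
      (1 / 2 ^ ((p * N + 4) * (N * N))))) = ((s.factorial : ℝ) * (s * (2 ^ ((2 + p * N) * N)) ^ s))
        / 2 ^ ((p * N + 4) * (N * N)) := by ring
    _ < 1 := by rw [div_lt_one h6]; exact h5

/-- **Matrices near the kernel have positive minors up to the order `K`.** -/
theorem near_pos {s p N K : ℕ} (hN : 1 ≤ N) (hK : K ≤ N) (hs : s ≤ K) (f g : Fin s → ℕ)
    (hf : StrictMono f) (hg : StrictMono g) (hfp : ∀ i, f i < p) (hgN : ∀ i, g i < N)
    (M : ℕ → ℕ → ℝ)
    (hM : ∀ u j, u < p → j < N → |M u j - kr K u j| ≤ 1 / 2 ^ ((p * N + 4) * (N * N))) :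
    0 < (Matrix.of fun i j => M (f i) (g j)).det := by
  have h1 := kr_det_pos hs f g hf hg
  have hC : (1 : ℝ) ≤ 2 ^ ((2 + p * N) * N) := one_le_pow₀ (by norm_num)
  have hkr : ∀ i j, |((kr K (f i) (g j) : ℕ) : ℝ)| + 1 ≤ 2 ^ ((2 + p * N) * N) := by
    intro i j
    rw [abs_of_nonneg (Nat.cast_nonneg _)]
    have h2 := kr_le (hfp i) (hgN j) hK
    have h3 : kr K (f i) (g j) + 1 ≤ 2 ^ ((2 + p * N) * N) := by
      calc kr K (f i) (g j) + 1 ≤ 2 ^ ((1 + p * N) * N) + 1 := by omega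
        _ ≤ 2 ^ ((1 + p * N) * N) + 2 ^ ((1 + p * N) * N) := by
            have : 1 ≤ 2 ^ ((1 + p * N) * N) := Nat.one_le_two_pow
            omega
        _ = 2 ^ ((1 + p * N) * N + 1) := by rw [pow_succ]; ring
        _ ≤ 2 ^ ((2 + p * N) * N) := by
            refine Nat.pow_le_pow_right (by omega) ?_
            have : (2 + p * N) * N = (1 + p * N) * N + N := by ring
            omega
    exact_mod_cast h3
  have hε1 : (1 : ℝ) / 2 ^ ((p * N + 4) * (N * N)) ≤ 1 := by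
    rw [div_le_one (by positivity)]
    exact one_le_pow₀ (by norm_num)
  have h4 := det_near (Matrix.of fun i j => M (f i) (g j))
    (Matrix.of fun i j => ((kr K (f i) (g j) : ℕ) : ℝ)) hC
    (ε := 1 / 2 ^ ((p * N + 4) * (N * N))) (by positivity) (fun i j => ?_) (fun i j => ?_)
    (fun i j => hM _ _ (hfp i) (hgN j))
  · have h5 := small_prod (p := p) (hs.trans hK) hN
    have h6 := (abs_le.1 h4).1
    linarith
  · have h5 := hM _ _ (hfp i) (hgN j)
    have h6 := hkr i j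
    have h7 := abs_sub_abs_le_abs_sub (M (f i) (g j)) ((kr K (f i) (g j) : ℕ) : ℝ)
    simp only [Matrix.of_apply]
    linarith
  · have := hkr i j
    simp only [Matrix.of_apply]
    linarith

end Pool.Agent.H37.HO
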