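import Mathlib
import Pool.Graph.R_pool_sql_team_seeded_843ab51a.V117.CauchyBinet

/-! Generalized Vandermonde determinants, and a totally positive kernel. -/

set_option autoImplicit false

namespace Pool.Agent.H37.HO

open Matrix Finset Polynomial

theorem sv_le : ∀ (n : ℕ) (P : ℝ[X]), P.support.card ≤ n + 1 → P.signVariations ≤ n := by
  intro n
  induction n with
  | zero =>
    intro P hP
    obtain ⟨d, c, rfl⟩ := (Polynomial.card_support_le_one_iff_monomial).1 hP
    rw [Polynomial.signVariations_monomial]
  | succ n ih =>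
    intro P hP
    by_cases h0 : P = 0
    · rw [h0, Polynomial.signVariations_zero]
      exact Nat.zero_le _
    · have h1 := Polynomial.card_support_eraseLead (f := P)
      have h2 := ih P.eraseLead (by omega)
      exact (Polynomial.signVariations_le_eraseLead_succ P).trans (by omega)

/-- A polynomial with positive leading coefficient, with at most `r + 1` terms and with `r` distinct
positive roots below `t` is positive at `t`. -/
theorem pos_of_roots {r : ℕ} {P : ℝ[X]} (hP : P.support.card ≤ r + 1) (hl : 0 < P.leadingCoeff)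
    {x : Fin r → ℝ} (hx0 : ∀ i, 0 < x i) (hx : Function.Injective x) (hr : ∀ i, P.eval (x i) = 0)
    {t : ℝ} (ht0 : 0 < t) (ht : ∀ i, x i < t) : 0 < P.eval t := by
  by_contra hneg
  push Not at hneg
  have hne : P ≠ 0 := by
    rintro rfl
    simp at hl
  have hroot : ∃ u, t ≤ u ∧ P.eval u = 0 := by
    by_cases hd : 0 < P.degree
    · have h1 := P.tendsto_atTop_of_leadingCoeff_nonneg hd hl.le
      obtain ⟨M, hM⟩ := (h1.eventually (Filter.eventually_ge_atTop 0)).and
        (Filter.eventually_ge_atTop t) |>.exists
      obtain ⟨hM1, hM2⟩ := hM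
      obtain ⟨u, hu, hu2⟩ := intermediate_value_Icc hM2 P.continuous.continuousOn
        (Set.mem_Icc.2 ⟨hneg, hM1⟩)
      exact ⟨u, hu.1, hu2⟩
    · exfalso
      have h2 := Polynomial.eq_C_of_degree_le_zero (not_lt.1 hd)
      rw [h2, Polynomial.eval_C] at hneg
      rw [h2, Polynomial.leadingCoeff_C] at hl
      exact absurd hneg (not_le.2 hl)
  obtain ⟨u, hu1, hu2⟩ := hroot
  have h3 := P.roots_countP_pos_le_signVariations
  have h4 := sv_le r P hP
  have h5 : (insert u (Finset.univ.image x)).card ≤ P.roots.countP (0 < ·) := by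
    rw [Multiset.countP_eq_card_filter]
    refine le_trans (Finset.card_le_card ?_) (Multiset.toFinset_card_le _)
    intro v hv
    rw [Multiset.mem_toFinset, Multiset.mem_filter, Polynomial.mem_roots hne]
    rcases Finset.mem_insert.1 hv with rfl | hv
    · exact ⟨hu2, ht0.trans_le hu1⟩
    · obtain ⟨i, -, rfl⟩ := Finset.mem_image.1 hv
      exact ⟨hr i, hx0 i⟩
  have h6 : (insert u (Finset.univ.image x)).card = r + 1 := by
    rw [Finset.card_insert_of_notMem, Finset.card_image_of_injective _ hx, Finset.card_univ,
      Fintype.card_fin]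
    intro h
    obtain ⟨i, -, hi⟩ := Finset.mem_image.1 h
    have := ht i
    rw [hi] at this
    exact absurd this (not_lt.2 hu1)
  omega

theorem gv_pos : ∀ (r : ℕ) (x : Fin r → ℝ) (a : Fin r → ℕ), (∀ i, 0 < x i) → StrictMono x →
    StrictMono a → 0 < (Matrix.of fun i j => x i ^ a j).det := by
  intro r
  induction r with
  | zero =>
    intro x a _ _ _
    simp
  | succ r ih =>
    intro x a hx0 hx ha
    let D : Fin (r + 1) → ℝ := fun j => (-1) ^ (r + (j : ℕ)) *
      (Matrix.of fun (i : Fin r) (l : Fin r) => x i.castSucc ^ a (j.succAbove l)).det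
    let P : ℝ[X] := ∑ j, Polynomial.monomial (a j) (D j)
    have heval : ∀ t : ℝ, P.eval t =
        (Matrix.of fun (i : Fin (r + 1)) j => (Fin.snoc (fun l : Fin r => x l.castSucc) t :
          Fin (r + 1) → ℝ) i ^ a j).det := by
      intro t
      rw [Matrix.det_succ_row _ (Fin.last r)]
      simp only [P, Polynomial.eval_finsetSum, Polynomial.eval_monomial]
      refine Finset.sum_congr rfl fun j _ => ?_
      simp only [Matrix.of_apply, Fin.snoc_last, Fin.val_last, D]
      have e : ((Matrix.of fun (i : Fin (r + 1)) j => (Fin.snoc (fun l : Fin r => x l.castSucc) t :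
          Fin (r + 1) → ℝ) i ^ a j).submatrix (Fin.last r).succAbove j.succAbove) =
          Matrix.of fun (i : Fin r) (l : Fin r) => x i.castSucc ^ a (j.succAbove l) := by
        ext i l
        simp only [Matrix.submatrix_apply, Matrix.of_apply, Fin.succAbove_last, Fin.snoc_castSucc]
      rw [e]
      ring
    have hcoef : ∀ j, P.coeff (a j) = D j := by
      intro j
      simp only [P, Polynomial.finsetSum_coeff, Polynomial.coeff_monomial]
      rw [Finset.sum_eq_single j]
      · rw [if_pos rfl]
      · intro b _ hb
        rw [if_neg fun h => hb (ha.injective h)]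
      · exact fun h => absurd (Finset.mem_univ _) h
    have hsupp : P.support ⊆ Finset.univ.image a := by
      intro k hk
      rw [Polynomial.mem_support_iff] at hk
      by_contra hk2
      apply hk
      simp only [P, Polynomial.finsetSum_coeff, Polynomial.coeff_monomial]
      refine Finset.sum_eq_zero fun j _ => if_neg fun h => hk2 ?_
      exact Finset.mem_image.2 ⟨j, Finset.mem_univ _, h⟩
    have hD : 0 < D (Fin.last r) := by
      have h1 := ih (fun i => x i.castSucc) (fun l => a l.castSucc) (fun i => hx0 _)
        (fun i j h => hx (by simpa using h)) (fun i j h => ha (by simpa using h))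
      simp only [D, Fin.val_last, Fin.succAbove_last]
      rw [Even.neg_one_pow ⟨r, rfl⟩, one_mul]
      exact h1
    have hdeg : P.natDegree = a (Fin.last r) := by
      refine le_antisymm ?_ (Polynomial.le_natDegree_of_ne_zero (by rw [hcoef]; exact hD.ne'))
      rw [Polynomial.natDegree_le_iff_coeff_eq_zero]
      intro N hN
      by_contra h
      obtain ⟨j, -, rfl⟩ := Finset.mem_image.1 (hsupp (Polynomial.mem_support_iff.2 h))
      exact absurd hN (not_lt.2 (ha.monotone (Fin.le_last j)))
    have hlead : 0 < P.leadingCoeff := by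
      rw [Polynomial.leadingCoeff, hdeg, hcoef]
      exact hD
    have h1 := pos_of_roots (r := r) (P := P) ((Finset.card_le_card hsupp).trans
      (Finset.card_image_le.trans (by simp))) hlead (x := fun i => x i.castSucc) (fun i => hx0 _)
      (fun i j h => Fin.castSucc_injective _ (hx.injective h)) (fun i => by
        rw [heval]
        refine Matrix.det_zero_of_row_eq (i := i.castSucc) (j := Fin.last r)
          (Fin.castSucc_lt_last i).ne ?_
        funext j
        simp only [Matrix.of_apply, Fin.snoc_castSucc, Fin.snoc_last])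
      (hx0 (Fin.last r)) (fun i => hx (Fin.castSucc_lt_last i))
    rw [heval] at h1
    convert h1 using 2
    ext i j
    simp only [Matrix.of_apply]
    congr 1
    refine Fin.lastCases ?_ (fun i => ?_) i
    · rw [Fin.snoc_last]
    · rw [Fin.snoc_castSucc]

/-- The kernel is totally positive up to the order `K + 1`. -/
theorem ker_pos {r K : ℕ} (hr : r ≤ K + 1) (x y : Fin r → ℝ) (hx0 : ∀ i, 0 < x i)
    (hy0 : ∀ i, 0 < y i) (hx : StrictMono x) (hy : StrictMono y) :
    0 < (Matrix.of fun i j => (1 + x i * y j) ^ K).det := by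
  let A : Matrix (Fin r) (Fin (K + 1)) ℝ := Matrix.of fun i k => x i ^ (k : ℕ)
  let B : Matrix (Fin r) (Fin (K + 1)) ℝ := Matrix.of fun i k => y i ^ (k : ℕ) * K.choose k
  have hAB : (Matrix.of fun i j => (1 + x i * y j) ^ K) = A * Bᵀ := by
    ext i j
    rw [Matrix.mul_apply, Matrix.of_apply, add_comm, add_pow, ← Fin.sum_univ_eq_sum_range
      (fun k => (x i * y j) ^ k * 1 ^ (K - k) * (K.choose k : ℝ)) (K + 1)]
    refine Finset.sum_congr rfl fun k _ => ?_
    simp only [A, B, Matrix.of_apply, Matrix.transpose_apply, one_pow, mul_one, mul_pow]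
    ring
  rw [hAB]
  have hcb := Pool.Agent.V117.CB.cauchyBinet A B
  have hf : (0 : ℝ) < ((Fintype.card (Fin r)).factorial : ℝ) := by positivity
  have hA : ∀ c : Fin r → Fin (K + 1), (A.submatrix id c).det =
      (Matrix.of fun i j => x i ^ ((c j : ℕ))).det := fun c => rfl
  have hB : ∀ c : Fin r → Fin (K + 1), (B.submatrix id c).det =
      (∏ j, (K.choose (c j) : ℝ)) * (Matrix.of fun i j => y i ^ ((c j : ℕ))).det := by
    intro c
    rw [← Matrix.det_mul_row]
    congr 1
    ext i j
    simp only [B, Matrix.submatrix_apply, Matrix.of_apply, id]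
    ring
  have hch : ∀ c : Fin r → Fin (K + 1), 0 < ∏ j, (K.choose (c j) : ℝ) := by
    intro c
    refine Finset.prod_pos fun j _ => ?_
    have := Nat.choose_pos (Nat.lt_succ_iff.1 (c j).2)
    exact_mod_cast this
  have hterm : ∀ c : Fin r → Fin (K + 1), Function.Injective c →
      0 < (A.submatrix id c).det * (B.submatrix id c).det := by
    intro c hc
    have hs : StrictMono fun j => ((c ∘ Tuple.sort c) j : ℕ) := by
      have h1 := (Tuple.monotone_sort c).strictMono_of_injective
        (hc.comp (Tuple.sort c).injective)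
      exact fun i j h => h1 h
    have hperm : ∀ z : Fin r → ℝ, (Matrix.of fun i j => z i ^ ((c (Tuple.sort c j) : ℕ))).det =
        ((Equiv.Perm.sign (Tuple.sort c) : ℤ) : ℝ) *
          (Matrix.of fun i j => z i ^ ((c j : ℕ))).det := by
      intro z
      rw [← Matrix.det_permute']
      rfl
    have hx1 := gv_pos r x _ hx0 hx hs
    have hy1 := gv_pos r y _ hy0 hy hs
    simp only [Function.comp] at hx1 hy1
    rw [hperm] at hx1 hy1
    rw [hA, hB]
    have hmul := mul_pos hx1 hy1
    have hsq : (((Equiv.Perm.sign (Tuple.sort c) : ℤ) : ℝ)) *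
        ((Equiv.Perm.sign (Tuple.sort c) : ℤ) : ℝ) = 1 := by
      rw [← Int.cast_mul, ← Units.val_mul, Int.units_mul_self]
      simp
    have e : (Matrix.of fun i j => x i ^ ((c j : ℕ))).det *
        (Matrix.of fun i j => y i ^ ((c j : ℕ))).det =
        (((Equiv.Perm.sign (Tuple.sort c) : ℤ) : ℝ) *
          (Matrix.of fun i j => x i ^ ((c j : ℕ))).det) *
        (((Equiv.Perm.sign (Tuple.sort c) : ℤ) : ℝ) *
          (Matrix.of fun i j => y i ^ ((c j : ℕ))).det) := by
      rw [mul_mul_mul_comm, hsq, one_mul]
    have h3 := mul_pos (hch c) hmul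
    rw [← e] at h3
    calc 0 < _ := h3
      _ = _ := by ring
  have hzero : ∀ c : Fin r → Fin (K + 1), ¬Function.Injective c →
      (A.submatrix id c).det * (B.submatrix id c).det = 0 := by
    intro c hc
    rw [Function.not_injective_iff] at hc
    obtain ⟨i, j, h1, h2⟩ := hc
    rw [hA, Matrix.det_zero_of_column_eq h2 (fun k => by simp only [Matrix.of_apply, h1]),
      zero_mul]
  have hsum : 0 < ∑ c : Fin r → Fin (K + 1), (A.submatrix id c).det * (B.submatrix id c).det := by
    refine Finset.sum_pos' (fun c _ => ?_) ⟨Fin.castLE hr, Finset.mem_univ _, hterm _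
      (Fin.castLE_injective hr)⟩
    by_cases hc : Function.Injective c
    · exact (hterm c hc).le
    · exact (hzero c hc).ge
  rw [← hcb] at hsum
  exact (mul_pos_iff_of_pos_left hf).1 hsum

end Pool.Agent.H37.HO
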